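import Pool.Agent.H785R2.ABC.A12

/-! Many coprime pairs with small radical: the lower bound (helper867). -/

set_option autoImplicit false

namespace Pool.Agent.TH867.SR

open Finset

/-- the radical of a positive integer -/
def radN (n : ℕ) : ℕ := ∏ p ∈ n.primeFactors, p

/-- coprime pairs `a ≤ b ≤ N` -/
def cpp (N : ℕ) : Finset (ℕ × ℕ) :=
  ((Finset.Ioc 0 N) ×ˢ (Finset.Ioc 0 N)).filter fun p => p.1 ≤ p.2 ∧ Nat.Coprime p.1 p.2

theorem sum_sq_le (N : ℕ) (hN : 2 ≤ N) :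
    ∑ d ∈ Finset.Icc 2 N, (1 : ℝ) / (d : ℝ) ^ 2 ≤ 3 / 4 - 1 / N := by
  induction N, hN using Nat.le_induction with
  | base => norm_num
  | succ n hn ih =>
    rw [Finset.sum_Icc_succ_top (by omega)]
    have hn0 : (0 : ℝ) < n := by exact_mod_cast (by omega : 0 < n)
    have h1 : (1 : ℝ) / ((n + 1 : ℕ) : ℝ) ^ 2 ≤ 1 / n - 1 / ((n + 1 : ℕ) : ℝ) := by
      push_cast
      rw [div_sub_div _ _ hn0.ne' (by positivity), div_le_div_iff₀ (by positivity)
        (by positivity)]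
      nlinarith
    linarith

theorem coprime_count (N : ℕ) (hN : 1 ≤ N) : (N : ℝ) ^ 2 / 8 ≤ ((cpp N).card : ℝ) := by
  classical
  have hN0 : (0 : ℝ) < N := by exact_mod_cast hN
  set P := (Finset.Ioc 0 N) ×ˢ (Finset.Ioc 0 N) with hP
  set Q := P.filter fun p => Nat.Coprime p.1 p.2 with hQ
  set Q' := P.filter fun p => ¬ Nat.Coprime p.1 p.2 with hQ'
  have hPc : P.card = N * N := by
    rw [hP, Finset.card_product, Nat.card_Ioc, Nat.sub_zero]
  have h1 : P.card = Q.card + Q'.card :=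
    (Finset.card_filter_add_card_filter_not (s := P) (fun p => Nat.Coprime p.1 p.2)).symm
  have h2 : Q'.card ≤ ∑ d ∈ Finset.Icc 2 N, (N / d) * (N / d) := by
    have hsub : Q' ⊆ (Finset.Icc 2 N).biUnion fun d =>
        ((Finset.Ioc 0 N).filter fun a => d ∣ a) ×ˢ ((Finset.Ioc 0 N).filter fun a => d ∣ a) := by
      intro p hp
      obtain ⟨h3, h4⟩ := Finset.mem_filter.1 hp
      obtain ⟨h5, h6⟩ := Finset.mem_product.1 h3
      obtain ⟨q, hq, hq1, hq2⟩ := Nat.Prime.not_coprime_iff_dvd.1 h4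
      rw [Finset.mem_biUnion]
      refine ⟨q, Finset.mem_Icc.2 ⟨hq.two_le, ?_⟩, Finset.mem_product.2
        ⟨Finset.mem_filter.2 ⟨h5, hq1⟩, Finset.mem_filter.2 ⟨h6, hq2⟩⟩⟩
      exact (Nat.le_of_dvd (Finset.mem_Ioc.1 h5).1 hq1).trans (Finset.mem_Ioc.1 h5).2
    refine (Finset.card_le_card hsub).trans (Finset.card_biUnion_le.trans
      (Finset.sum_le_sum fun d _ => ?_))
    rw [Finset.card_product, Nat.Ioc_filter_dvd_card_eq_div]
  have h3 : ((∑ d ∈ Finset.Icc 2 N, (N / d) * (N / d) : ℕ) : ℝ) ≤ 3 / 4 * (N : ℝ) ^ 2 := by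
    rcases Nat.lt_or_ge N 2 with h | h
    · rw [Finset.Icc_eq_empty (by omega), Finset.sum_empty, Nat.cast_zero]
      positivity
    · push_cast
      calc ∑ d ∈ Finset.Icc 2 N, (((N / d : ℕ) : ℝ) * ((N / d : ℕ) : ℝ)) ≤
          ∑ d ∈ Finset.Icc 2 N, (N : ℝ) ^ 2 * (1 / (d : ℝ) ^ 2) := by
            refine Finset.sum_le_sum fun d hd => ?_
            have hd0 : (0 : ℝ) < d := by
              have := (Finset.mem_Icc.1 hd).1
              exact_mod_cast (by omega : 0 < d)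
            have h4 : ((N / d : ℕ) : ℝ) ≤ (N : ℝ) / d := Nat.cast_div_le
            calc ((N / d : ℕ) : ℝ) * ((N / d : ℕ) : ℝ) ≤ (N : ℝ) / d * ((N : ℝ) / d) :=
                mul_le_mul h4 h4 (Nat.cast_nonneg _) (by positivity)
              _ = _ := by field_simp
        _ = (N : ℝ) ^ 2 * ∑ d ∈ Finset.Icc 2 N, (1 / (d : ℝ) ^ 2) := by rw [Finset.mul_sum]
        _ ≤ (N : ℝ) ^ 2 * (3 / 4) := by
            refine mul_le_mul_of_nonneg_left ?_ (by positivity)
            have := sum_sq_le N h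
            have h5 : (0 : ℝ) < 1 / N := by positivity
            linarith
        _ = _ := by ring
  have h4 : Q.card ≤ 2 * (cpp N).card := by
    have hsub : Q ⊆ cpp N ∪ (cpp N).image Prod.swap := by
      intro p hp
      obtain ⟨h5, h6⟩ := Finset.mem_filter.1 hp
      rcases le_total p.1 p.2 with h | h
      · exact Finset.mem_union_left _ (Finset.mem_filter.2 ⟨h5, h, h6⟩)
      · refine Finset.mem_union_right _ (Finset.mem_image.2 ⟨p.swap, ?_, Prod.swap_swap p⟩)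
        obtain ⟨h7, h8⟩ := Finset.mem_product.1 h5
        exact Finset.mem_filter.2 ⟨Finset.mem_product.2 ⟨h8, h7⟩, h, h6.symm⟩
    have h7 := (Finset.card_le_card hsub).trans (Finset.card_union_le _ _)
    have h8 := Finset.card_image_le (s := cpp N) (f := Prod.swap)
    omega
  have h5 : (Q'.card : ℝ) ≤ 3 / 4 * (N : ℝ) ^ 2 := by
    refine le_trans ?_ h3
    exact_mod_cast h2
  have h6 : ((N : ℝ) * N) = Q.card + Q'.card := by
    rw [hPc] at h1
    exact_mod_cast h1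
  have h7 : (Q.card : ℝ) ≤ 2 * (cpp N).card := by exact_mod_cast h4
  nlinarith

/-- integers up to `N` whose primes divide `R` -/
theorem smooth_count (ε : ℝ) (hε : 0 < ε) : ∃ D : ℝ, 0 < D ∧ ∀ N R : ℕ, 1 ≤ N → 1 ≤ R →
    (((Finset.Icc 1 N).filter fun a => a.primeFactors ⊆ R.primeFactors).card : ℝ) ≤
      D * (N : ℝ) ^ ε * (R : ℝ) ^ ε := by
  classical
  obtain ⟨D1, hD1, h1⟩ := Pool.Agent.H785R2.ABC.stmtA1 2 (by norm_num) ε hε
  obtain ⟨D2, hD2, h2⟩ := Pool.Agent.H785R2.ABC.stmtA2 ε hε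
  refine ⟨D1 * D2, by positivity, fun N R hN hR => ?_⟩
  have hsub : ((Finset.Icc 1 N).filter fun a => a.primeFactors ⊆ R.primeFactors) ⊆
      R.primeFactors.powerset.biUnion fun T => (Finset.Icc 1 N).filter fun a =>
        Pool.Agent.H785R2.ABC.rad a = ∏ p ∈ T, p := by
    intro a ha
    obtain ⟨h3, h4⟩ := Finset.mem_filter.1 ha
    rw [Finset.mem_biUnion]
    exact ⟨a.primeFactors, Finset.mem_powerset.2 h4, Finset.mem_filter.2 ⟨h3, rfl⟩⟩
  have h3 : (((Finset.Icc 1 N).filter fun a => a.primeFactors ⊆ R.primeFactors).card : ℝ) ≤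
      ∑ T ∈ R.primeFactors.powerset, (((Finset.Icc 1 N).filter fun a =>
        Pool.Agent.H785R2.ABC.rad a = ∏ p ∈ T, p).card : ℝ) := by
    exact_mod_cast (Finset.card_le_card hsub).trans Finset.card_biUnion_le
  refine h3.trans ((Finset.sum_le_sum fun T _ => h2 N hN _).trans ?_)
  rw [Finset.sum_const, Finset.card_powerset, nsmul_eq_mul]
  push_cast
  have h4 := h1 R hR
  have h5 : 0 ≤ D2 * (N : ℝ) ^ ε := by positivity
  calc (2 : ℝ) ^ R.primeFactors.card * (D2 * (N : ℝ) ^ ε) ≤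
      (D1 * (R : ℝ) ^ ε) * (D2 * (N : ℝ) ^ ε) := mul_le_mul_of_nonneg_right h4 h5
    _ = _ := by ring

/-- the radicals of the coprime pairs up to `N` -/
theorem radicals_lower (ε : ℝ) (hε : 0 < ε) : ∃ c : ℝ, 0 < c ∧ ∀ X : ℝ, 8 ≤ X → ∀ N : ℕ,
    N = ⌊X ^ ((1 : ℝ) / 3) / 2⌋₊ → c * X ^ (2 / 3 - ε) ≤
      (((cpp N).image fun p => radN (p.1 * p.2 * (p.1 + p.2))).card : ℝ) := by
  classical
  obtain ⟨D, hD, h⟩ := smooth_count (ε / 4) (by positivity)
  refine ⟨1 / (128 * D ^ 2), by positivity, fun X hX N hN => ?_⟩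
  have hX0 : 0 < X := by linarith
  have hX1 : 1 ≤ X := by linarith
  obtain ⟨Y, hY⟩ : ∃ Y, Y = X ^ ((1 : ℝ) / 3) := ⟨_, rfl⟩
  rw [← hY] at hN
  have hY0 : 0 < Y := by rw [hY]; positivity
  have hY3 : Y ^ 3 = X := by
    rw [hY, ← Real.rpow_natCast, ← Real.rpow_mul hX0.le]
    norm_num
  have hY2 : 2 ≤ Y := by
    by_contra hlt
    push Not at hlt
    have : Y ^ 3 < 2 ^ 3 := pow_lt_pow_left₀ hlt hY0.le (by norm_num)
    rw [hY3] at this
    linarith
  have hN1 : 1 ≤ N := by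
    rw [hN]
    refine Nat.le_floor ?_
    rw [Nat.cast_one]
    linarith
  have hNr : (1 : ℝ) ≤ N := by exact_mod_cast hN1
  have hNY : (N : ℝ) ≤ Y / 2 := by rw [hN]; exact Nat.floor_le (by positivity)
  have hNY2 : Y / 4 ≤ N := by
    have : Y / 2 - 1 < N := by rw [hN]; exact Nat.sub_one_lt_floor _
    linarith
  have hNX : (N : ℝ) ≤ X := by
    have : Y ≤ Y ^ 3 := by nlinarith [mul_pos hY0 hY0]
    linarith
  -- the fibres
  have hfib : ∀ R ∈ (cpp N).image fun p => radN (p.1 * p.2 * (p.1 + p.2)),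
      ((cpp N).filter fun p => radN (p.1 * p.2 * (p.1 + p.2)) = R).card ≤ ⌊D ^ 2 * X ^ ε⌋₊ := by
    intro R hR
    obtain ⟨p0, hp0, hpR⟩ := Finset.mem_image.1 hR
    have hmem : ∀ p ∈ cpp N, 0 < p.1 ∧ p.1 ≤ N ∧ 0 < p.2 ∧ p.2 ≤ N := by
      intro p hp
      obtain ⟨h5, _⟩ := Finset.mem_filter.1 hp
      obtain ⟨h7, h8⟩ := Finset.mem_product.1 h5
      obtain ⟨h9, h10⟩ := Finset.mem_Ioc.1 h7
      obtain ⟨h11, h12⟩ := Finset.mem_Ioc.1 h8
      exact ⟨h9, h10, h11, h12⟩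
    have hprod : ∀ p ∈ cpp N, p.1 * p.2 * (p.1 + p.2) ≠ 0 := by
      intro p hp
      obtain ⟨h1, _, h3, _⟩ := hmem p hp
      positivity
    have hR1 : 1 ≤ R := by
      rw [← hpR]
      exact Finset.prod_pos fun q hq => (Nat.prime_of_mem_primeFactors hq).pos
    have hRX : (R : ℝ) ≤ X := by
      have h1 : R ≤ p0.1 * p0.2 * (p0.1 + p0.2) := by
        rw [← hpR]
        exact Nat.le_of_dvd (Nat.pos_of_ne_zero (hprod p0 hp0)) (Nat.prod_primeFactors_dvd _)
      obtain ⟨_, h2, _, h4⟩ := hmem p0 hp0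
      have h5 : p0.1 * p0.2 * (p0.1 + p0.2) ≤ N * N * (N + N) := by gcongr
      have h6 : (R : ℝ) ≤ (N : ℝ) * N * (N + N) := by exact_mod_cast h1.trans h5
      have h7 : (N : ℝ) * N * (N + N) ≤ Y ^ 3 := by
        have h8 : (N : ℝ) ^ 3 ≤ (Y / 2) ^ 3 := pow_le_pow_left₀ (by linarith) hNY 3
        have h9 : (N : ℝ) * N * (N + N) = 2 * (N : ℝ) ^ 3 := by ring
        have h10 : (Y / 2) ^ 3 = Y ^ 3 / 8 := by ring
        rw [h10] at h8
        have h11 : 0 < Y ^ 3 := by positivity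
        linarith
      rw [hY3] at h7
      linarith
    set A := (Finset.Icc 1 N).filter fun a => a.primeFactors ⊆ R.primeFactors with hA
    have hsub : ((cpp N).filter fun p => radN (p.1 * p.2 * (p.1 + p.2)) = R) ⊆ A ×ˢ A := by
      intro p hp
      obtain ⟨h1, h2⟩ := Finset.mem_filter.1 hp
      obtain ⟨h3, h4, h5, h6⟩ := hmem p h1
      have hpf : (p.1 * p.2 * (p.1 + p.2)).primeFactors = R.primeFactors := by
        rw [← h2, radN, Nat.primeFactors_prod fun q hq => Nat.prime_of_mem_primeFactors hq]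
      refine Finset.mem_product.2 ⟨Finset.mem_filter.2 ⟨Finset.mem_Icc.2 ⟨h3, h4⟩, ?_⟩,
        Finset.mem_filter.2 ⟨Finset.mem_Icc.2 ⟨h5, h6⟩, ?_⟩⟩
      · rw [← hpf]
        exact Nat.primeFactors_mono ((dvd_mul_right _ _).trans (dvd_mul_right _ _))
          (hprod p h1)
      · rw [← hpf]
        exact Nat.primeFactors_mono ((dvd_mul_left _ _).trans (dvd_mul_right _ _))
          (hprod p h1)
    have h1 := h N R hN1 hR1
    rw [← hA] at h1
    refine Nat.le_floor ?_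
    have h2 : (((cpp N).filter fun p => radN (p.1 * p.2 * (p.1 + p.2)) = R).card : ℝ) ≤
        (A.card : ℝ) * A.card := by
      have := Finset.card_le_card hsub
      rw [Finset.card_product] at this
      exact_mod_cast this
    have h3 : (A.card : ℝ) ≤ D * X ^ (ε / 4) * X ^ (ε / 4) := by
      refine h1.trans ?_
      refine mul_le_mul ?_ (Real.rpow_le_rpow (by positivity) hRX (by positivity))
        (by positivity) (by positivity)
      refine mul_le_mul_of_nonneg_left (Real.rpow_le_rpow (by positivity) hNX (by positivity))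
        hD.le
    calc (((cpp N).filter fun p => radN (p.1 * p.2 * (p.1 + p.2)) = R).card : ℝ) ≤
        (A.card : ℝ) * A.card := h2
      _ ≤ (D * X ^ (ε / 4) * X ^ (ε / 4)) * (D * X ^ (ε / 4) * X ^ (ε / 4)) :=
          mul_le_mul h3 h3 (Nat.cast_nonneg _) (by positivity)
      _ = D ^ 2 * (X ^ (ε / 4) * X ^ (ε / 4) * X ^ (ε / 4) * X ^ (ε / 4)) := by ring
      _ = D ^ 2 * X ^ ε := by
          rw [← Real.rpow_add hX0, ← Real.rpow_add hX0, ← Real.rpow_add hX0]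
          congr 2
          ring
  have h1 := Finset.card_le_mul_card_image (cpp N) _ hfib
  have h2 := coprime_count N hN1
  have h3 : ((cpp N).card : ℝ) ≤ D ^ 2 * X ^ ε *
      (((cpp N).image fun p => radN (p.1 * p.2 * (p.1 + p.2))).card : ℝ) := by
    have h4 : ((cpp N).card : ℝ) ≤ (⌊D ^ 2 * X ^ ε⌋₊ : ℝ) *
        (((cpp N).image fun p => radN (p.1 * p.2 * (p.1 + p.2))).card : ℝ) := by
      exact_mod_cast h1
    refine h4.trans (mul_le_mul_of_nonneg_right ?_ (Nat.cast_nonneg _))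
    exact Nat.floor_le (by positivity)
  have h4 : Y ^ 2 / 128 ≤ (N : ℝ) ^ 2 / 8 := by
    have : (Y / 4) ^ 2 ≤ (N : ℝ) ^ 2 := pow_le_pow_left₀ (by positivity) hNY2 2
    have e : (Y / 4) ^ 2 = Y ^ 2 / 16 := by ring
    rw [e] at this
    linarith
  have hYX : Y ^ 2 = X ^ ((2 : ℝ) / 3) := by
    rw [hY, ← Real.rpow_natCast, ← Real.rpow_mul hX0.le]
    norm_num
  have h5 : X ^ (2 / 3 - ε) * X ^ ε = Y ^ 2 := by
    rw [hYX, ← Real.rpow_add hX0]
    congr 1
    ring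
  have hXε : 0 < X ^ ε := by positivity
  have h6 : Y ^ 2 / 128 ≤ D ^ 2 * X ^ ε *
      (((cpp N).image fun p => radN (p.1 * p.2 * (p.1 + p.2))).card : ℝ) := by linarith
  rw [← h5] at h6
  rw [div_mul_eq_mul_div, one_mul, div_le_iff₀ (by positivity)]
  have h7 : X ^ (2 / 3 - ε) * X ^ ε / 128 = (X ^ (2 / 3 - ε) / 128) * X ^ ε := by ring
  have h8 : D ^ 2 * X ^ ε *
      (((cpp N).image fun p => radN (p.1 * p.2 * (p.1 + p.2))).card : ℝ) = (D ^ 2 *
      (((cpp N).image fun p => radN (p.1 * p.2 * (p.1 + p.2))).card : ℝ)) * X ^ ε := by ring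
  rw [h7, h8] at h6
  have h9 := le_of_mul_le_mul_right h6 hXε
  linarith

end Pool.Agent.TH867.SR
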