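import Pool.Agent.TH867.SR.Main

/-! Triples all of whose primes are small: doubly exponential heights (helper867). -/

set_option autoImplicit false

namespace Pool.Agent.TH867.SR

open Finset

/-- a light set of primes of small product -/
theorem smooth_choice {k : ℕ} (hk : 1 ≤ k) {X y : ℝ} (hX : 1 ≤ X) (hy : 1 ≤ y)
    {t : Fin 3 → ℕ} (h : Tr t) (h2 : 0 < Real.log (t 2))
    (hrad : rr t 0 + rr t 1 + rr t 2 ≤ Real.log X)
    (hsm : ∀ q ∈ (N3 t).primeFactors, (q : ℝ) ≤ y) :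
    ∃ S : Finset ℕ, (∀ q ∈ S, q.Prime) ∧ Light k S t ∧
      ((∏ q ∈ S, q : ℕ) : ℝ) ≤ X ^ (2 / 3 + 1 / (k : ℝ)) * y := by
  have hk0 : (0 : ℝ) < k := by exact_mod_cast hk
  have hk1 : (1 : ℝ) ≤ k := by exact_mod_cast hk
  have hX0 : 0 < X := by linarith
  have hy0 : 0 < y := by linarith
  have hLX : 0 ≤ Real.log X := Real.log_nonneg hX
  have hN3 := log_N3_le h
  have hNge : Real.log (t 2) ≤ Real.log (N3 t) := by
    rw [log_N3 h]
    have a0 : 0 ≤ Real.log (t 0) := Real.log_natCast_nonneg _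
    have a1 : 0 ≤ Real.log (t 1) := Real.log_natCast_nonneg _
    linarith
  have hN0 : 0 < Real.log (N3 t) := by linarith
  obtain ⟨κ, hκ⟩ : ∃ κ : ℝ, κ = Real.log (N3 t) - (1 - 1 / (k : ℝ)) * Real.log (t 2) := ⟨_, rfl⟩
  have h1k : 0 < 1 / (k : ℝ) := by positivity
  have h1k1 : 1 / (k : ℝ) ≤ 1 := by rw [div_le_one hk0]; exact hk1
  have hκ0 : 0 ≤ κ := by
    rw [hκ]
    nlinarith
  obtain ⟨Q, hQ, hw, hc⟩ := greedy (fun q => (vv t q : ℝ) * Real.log q)
    (fun q : ℕ => Real.log (q : ℝ)) (κ := κ) (ρ := Real.log X / Real.log (N3 t))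
    (M := Real.log y) hκ0 (by positivity) (Real.log_nonneg hy) (N3 t).primeFactors
    (fun q hq => Real.log_le_log (by
      exact_mod_cast (Nat.prime_of_mem_primeFactors hq).pos) (hsm q hq))
    (by
      have e1 := log_eq_sum' (y := N3 t) h.N3_pos.ne'
      have e2 : ∑ q ∈ (N3 t).primeFactors, (vv t q : ℝ) * Real.log q = Real.log (N3 t) := by
        rw [e1]; rfl
      rw [e2, div_mul_cancel₀ _ hN0.ne', rr_sum h]
      exact hrad)
    (by
      have e1 := log_eq_sum' (y := N3 t) h.N3_pos.ne'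
      have e2 : ∑ q ∈ (N3 t).primeFactors, (vv t q : ℝ) * Real.log q = Real.log (N3 t) := by
        rw [e1]; rfl
      rw [e2, hκ]
      nlinarith)
  have hQp : ∀ q ∈ Q, q.Prime := fun q hq => Nat.prime_of_mem_primeFactors (hQ hq)
  refine ⟨Q, hQp, ?_, ?_⟩
  · rw [Light, ← hκ]
    exact hw
  · have hpos : 0 < ∏ q ∈ Q, q := Finset.prod_pos fun q hq => (hQp q hq).pos
    rw [← Real.log_le_log_iff (by exact_mod_cast hpos) (by positivity),
      Real.log_mul (by positivity) hy0.ne', Real.log_rpow hX0, log_prod_primes hQp]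
    refine hc.trans ?_
    have e3 : Real.log X / Real.log (N3 t) * κ ≤ (2 / 3 + 1 / (k : ℝ)) * Real.log X := by
      have e4 : κ ≤ (2 / 3 + 1 / (k : ℝ)) * Real.log (N3 t) := by
        rw [hκ]
        have e5 : 0 ≤ (1 - 1 / (k : ℝ)) * (3 * Real.log (t 2) - Real.log (N3 t)) :=
          mul_nonneg (by linarith) (by linarith)
        nlinarith
      calc Real.log X / Real.log (N3 t) * κ ≤
          Real.log X / Real.log (N3 t) * ((2 / 3 + 1 / (k : ℝ)) * Real.log (N3 t)) :=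
            mul_le_mul_of_nonneg_left e4 (by positivity)
        _ = (2 / 3 + 1 / (k : ℝ)) * Real.log X := by field_simp
    linarith

/-- **smooth triples** -/
theorem smooth_upper (ε : ℝ) (hε : 0 < ε) : ∃ D : ℝ, 0 < D ∧ ∀ X y H : ℝ, 1 ≤ X → 1 ≤ y →
    1 ≤ H → ∀ F : Finset (Fin 3 → ℕ), (∀ t ∈ F, Tr t ∧
      rr t 0 + rr t 1 + rr t 2 ≤ Real.log X ∧ (∀ q ∈ (N3 t).primeFactors, (q : ℝ) ≤ y) ∧
      Real.log (t 2) ≤ H) → (F.card : ℝ) ≤ D * y * X ^ (2 / 3 + ε) * (1 + Real.log H) := by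
  obtain ⟨k, hk⟩ : ∃ k : ℕ, 4 / ε ≤ k := exists_nat_ge _
  have hk0 : (0 : ℝ) < k := lt_of_lt_of_le (by positivity) hk
  have hk1 : 1 ≤ k := by
    have : 0 < k := by exact_mod_cast hk0
    omega
  have hk1' : (1 : ℝ) ≤ k := by exact_mod_cast hk1
  have hkε : 4 / (k : ℝ) ≤ ε := by
    rw [div_le_iff₀ hε] at hk
    rw [div_le_iff₀ hk0]
    linarith
  have h1k : 0 < 1 / (k : ℝ) := by positivity
  have h1k1 : 1 / (k : ℝ) ≤ 1 := by rw [div_le_one hk0]; exact hk1'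
  obtain ⟨D, hD, h⟩ := light_total hk1
  refine ⟨D, hD, fun X y H hX hy hH F hF => ?_⟩
  have hX0 : 0 < X := by linarith
  have hy0 : 0 < y := by linarith
  have hlH : 0 ≤ Real.log H := Real.log_nonneg hH
  obtain ⟨y', hy'⟩ : ∃ y', y' = min y X := ⟨_, rfl⟩
  have hy1 : 1 ≤ y' := by rw [hy']; exact le_min hy hX
  have hy0' : 0 < y' := by linarith
  have hyy : y' ≤ y := by rw [hy']; exact min_le_left _ _
  have hyX : y' ≤ X := by rw [hy']; exact min_le_right _ _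
  have hM : 1 ≤ X ^ (2 / 3 + 1 / (k : ℝ)) * y' := by
    have : 1 ≤ X ^ (2 / 3 + 1 / (k : ℝ)) := Real.one_le_rpow hX (by positivity)
    nlinarith
  have h1 := h (X ^ (2 / 3 + 1 / (k : ℝ)) * y') H hM hH F (fun t ht => by
    obtain ⟨a1, a2, a3, a4⟩ := hF t ht
    refine ⟨a1, a4, fun hbig => smooth_choice hk1 hX hy1 a1 (by linarith) a2 fun q hq => ?_⟩
    rw [hy']
    refine le_min (a3 q hq) ?_
    have hq0 : (0 : ℝ) < q := by exact_mod_cast (Nat.prime_of_mem_primeFactors hq).pos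
    refine (Real.log_le_log_iff hq0 hX0).1 (le_trans ?_ a2)
    rw [← rr_sum a1]
    exact Finset.single_le_sum (f := fun q : ℕ => Real.log (q : ℝ))
      (fun q hq => log_prime_nonneg (Nat.prime_of_mem_primeFactors hq)) hq)
  refine h1.trans ?_
  refine mul_le_mul_of_nonneg_right ?_ (by linarith)
  rw [mul_assoc D]
  refine mul_le_mul_of_nonneg_left ?_ hD.le
  rw [Real.mul_rpow (by positivity) hy0'.le, ← Real.rpow_mul hX0.le]
  have e1 : y' ^ (1 + 1 / (k : ℝ)) ≤ y * X ^ (1 / (k : ℝ)) := by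
    rw [Real.rpow_add hy0', Real.rpow_one]
    exact mul_le_mul hyy (Real.rpow_le_rpow hy0'.le hyX h1k.le) (by positivity) hy0.le
  calc X ^ ((2 / 3 + 1 / (k : ℝ)) * (1 + 1 / (k : ℝ))) * y' ^ (1 + 1 / (k : ℝ)) ≤
      X ^ ((2 / 3 + 1 / (k : ℝ)) * (1 + 1 / (k : ℝ))) * (y * X ^ (1 / (k : ℝ))) :=
        mul_le_mul_of_nonneg_left e1 (by positivity)
    _ = y * (X ^ ((2 / 3 + 1 / (k : ℝ)) * (1 + 1 / (k : ℝ))) * X ^ (1 / (k : ℝ))) := by ring
    _ = y * X ^ ((2 / 3 + 1 / (k : ℝ)) * (1 + 1 / (k : ℝ)) + 1 / (k : ℝ)) := by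
        rw [← Real.rpow_add hX0]
    _ ≤ y * X ^ (2 / 3 + ε) := by
        refine mul_le_mul_of_nonneg_left (Real.rpow_le_rpow_of_exponent_le hX ?_) hy0.le
        have e2 : 4 / (k : ℝ) = 4 * (1 / k) := by ring
        rw [e2] at hkε
        nlinarith

end Pool.Agent.TH867.SR
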