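import Pool.Agent.TH867.SR.Sc

/-! The count of triples by radical and height (helper867). -/

set_option autoImplicit false

namespace Pool.Agent.TH867.SR

open Finset

/-- the logarithm of the radical of the product -/
theorem rr_sum {t : Fin 3 → ℕ} (h : Tr t) :
    ∑ q ∈ (N3 t).primeFactors, Real.log q = rr t 0 + rr t 1 + rr t 2 := by
  have c01 : Nat.Coprime (t 0) (t 1) := h.cop
  have c2 : Nat.Coprime (t 0 * t 1) (t 2) :=
    Nat.Coprime.mul_left (h.cop' (by decide)) (h.cop' (by decide))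
  rw [N3, Nat.primeFactors_mul (Nat.mul_pos (h.pos' 0) (h.pos' 1)).ne' (h.pos' 2).ne',
    Finset.sum_union c2.disjoint_primeFactors,
    Nat.primeFactors_mul (h.pos' 0).ne' (h.pos' 1).ne',
    Finset.sum_union c01.disjoint_primeFactors]
  rfl

theorem log_prod_primes {S : Finset ℕ} (hS : ∀ q ∈ S, q.Prime) :
    Real.log ((∏ q ∈ S, q : ℕ) : ℝ) = ∑ q ∈ S, Real.log q := by
  push_cast
  rw [Real.log_prod]
  intro q hq
  exact_mod_cast (hS q hq).ne_zero

/-- the trivial bound -/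
theorem trivial_upper (ε : ℝ) (hε : 0 < ε) : ∃ D : ℝ, 0 < D ∧ ∀ X H : ℝ, 1 ≤ X → 1 ≤ H →
    ∀ F : Finset (Fin 3 → ℕ), (∀ t ∈ F, Tr t ∧ rr t 0 + rr t 1 + rr t 2 ≤ Real.log X ∧
      Real.log (t 2) ≤ H) → (F.card : ℝ) ≤ D * X ^ (1 + ε) * (1 + Real.log H) := by
  obtain ⟨k, hk⟩ : ∃ k : ℕ, 1 / ε ≤ k := exists_nat_ge _
  have hk0 : (0 : ℝ) < k := lt_of_lt_of_le (by positivity) hk
  have hk1 : 1 ≤ k := by
    have : 0 < k := by exact_mod_cast hk0
    omega
  have hkε : 1 / (k : ℝ) ≤ ε := by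
    rw [div_le_iff₀ hε] at hk
    rw [div_le_iff₀ hk0]
    linarith
  obtain ⟨D, hD, h⟩ := light_total hk1
  refine ⟨D, hD, fun X H hX hH F hF => ?_⟩
  have hX0 : 0 < X := by linarith
  have h1 := h X H hX hH F (fun t ht => by
    obtain ⟨a1, a2, a3⟩ := hF t ht
    refine ⟨a1, a3, fun _ => ⟨(N3 t).primeFactors,
      fun q hq => Nat.prime_of_mem_primeFactors hq, ?_, ?_⟩⟩
    · have e1 := log_eq_sum' (y := N3 t) a1.N3_pos.ne'
      have e2 : 0 ≤ Real.log (t 2) := Real.log_natCast_nonneg _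
      have e3 : 1 / (k : ℝ) ≤ 1 := by
        rw [div_le_one hk0]; exact_mod_cast hk1
      have e4 : 0 ≤ (1 - 1 / (k : ℝ)) * Real.log (t 2) := mul_nonneg (by linarith) e2
      rw [Light, e1]
      unfold vv
      linarith
    · have hpos : 0 < ∏ q ∈ (N3 t).primeFactors, q :=
        Finset.prod_pos fun q hq => (Nat.prime_of_mem_primeFactors hq).pos
      rw [← Real.log_le_log_iff (by exact_mod_cast hpos) hX0,
        log_prod_primes (fun q hq => Nat.prime_of_mem_primeFactors hq), rr_sum a1]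
      exact a2)
  refine h1.trans ?_
  have hlH : 0 ≤ Real.log H := Real.log_nonneg hH
  refine mul_le_mul_of_nonneg_right ?_ (by linarith)
  refine mul_le_mul_of_nonneg_left ?_ hD.le
  exact Real.rpow_le_rpow_of_exponent_le hX (by linarith)

/-- geometric sum of the scales -/
theorem geom_le {k : ℕ} (hk : 1 ≤ k) {l0 H : ℝ} (hl0 : 0 < l0) {J : ℕ}
    (hJ : l0 * rho k ^ J ≤ H) :
    ∑ j ∈ Finset.range (J + 1), l0 * rho k ^ j ≤ (4 * k + 1) * H := by
  have hk0 : (0 : ℝ) < k := by exact_mod_cast hk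
  have hρ := rho_gt hk
  rw [← Finset.mul_sum, geom_sum_eq hρ.ne']
  have e1 : rho k - 1 = 1 / (4 * k) := by unfold rho; ring
  rw [e1, div_div_eq_mul_div, div_one]
  have e2 : rho k ^ (J + 1) - 1 ≤ rho k ^ J * (1 + 1 / (4 * k)) := by
    rw [pow_succ]
    have : rho k ^ J * rho k = rho k ^ J * (1 + 1 / (4 * k)) := rfl
    linarith
  calc l0 * ((rho k ^ (J + 1) - 1) * (4 * k)) ≤
      l0 * ((rho k ^ J * (1 + 1 / (4 * k))) * (4 * k)) :=
        mul_le_mul_of_nonneg_left (mul_le_mul_of_nonneg_right e2 (by positivity)) hl0.le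
    _ = (4 * k + 1) * (l0 * rho k ^ J) := by field_simp
    _ ≤ (4 * k + 1) * H := mul_le_mul_of_nonneg_left hJ (by positivity)

/-- heights up to the radical bound -/
theorem mid_upper (ε : ℝ) (hε : 0 < ε) : ∃ D : ℝ, 0 < D ∧ ∃ L0 : ℝ, 1 ≤ L0 ∧ ∀ X H : ℝ,
    1 ≤ X → L0 ≤ Real.log X → 1 ≤ H → H ≤ X →
    ∀ F : Finset (Fin 3 → ℕ), (∀ t ∈ F, Tr t ∧ rr t 0 + rr t 1 + rr t 2 ≤ Real.log X ∧
      Real.log (t 2) ≤ H) → (F.card : ℝ) ≤ D * X ^ (2 / 3 + ε) * H := by
  classical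
  obtain ⟨k0, hk0⟩ : ∃ k : ℕ, 3 / ε ≤ k := exists_nat_ge _
  obtain ⟨k, hkd⟩ : ∃ k : ℕ, k = k0 + 3 := ⟨_, rfl⟩
  have hk3 : 3 ≤ k := by omega
  have hk1 : 1 ≤ k := by omega
  have hkp : (0 : ℝ) < k := by positivity
  have hkε : 3 / (k : ℝ) ≤ ε := by
    have h1 : 3 / ε ≤ (k : ℝ) := hk0.trans (by rw [hkd]; push_cast; linarith)
    rw [div_le_iff₀ hε] at h1
    rw [div_le_iff₀ hkp]
    linarith
  obtain ⟨η, hη, L1, hL1, hsmall⟩ := small_total ε hε
  obtain ⟨D, hD, L0, hL0, hscale⟩ := scale_count hk3 hη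
  obtain ⟨L2, hL2, hsq⟩ := sq_log_small hη (T := 100 * (k : ℝ)) (by positivity)
  refine ⟨3 + D * (4 * k + 1), by positivity, max L1 (max L0 L2),
    (hL1.trans (le_max_left _ _)), fun X H hX hLX hH hHX F hF => ?_⟩
  have hX0 : 0 < X := by linarith
  have b1 : L1 ≤ Real.log X := (le_max_left _ _).trans hLX
  have b2 : L0 ≤ Real.log X := ((le_max_left _ _).trans (le_max_right _ _)).trans hLX
  have b3 : L2 ≤ Real.log X := ((le_max_right _ _).trans (le_max_right _ _)).trans hLX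
  obtain ⟨l0, hl0⟩ : ∃ l0, l0 = Real.log X ^ (2 + η) := ⟨_, rfl⟩
  obtain ⟨c1, c2, c3⟩ := hsq (Real.log X) b3 l0 hl0.symm.le
  have hlX3 : 3 ≤ Real.log X := hL0.trans b2
  have hl0p : 0 < l0 := by linarith
  have hXp : 1 ≤ X ^ (2 / 3 + ε) := Real.one_le_rpow hX (by positivity)
  set F1 := F.filter fun t => Real.log (t 2) ≤ l0 with hF1
  set F2 := F.filter fun t => ¬ Real.log (t 2) ≤ l0 with hF2
  have hcardN : F.card = F1.card + F2.card :=
    (Finset.card_filter_add_card_filter_not (s := F) (fun t => Real.log (t 2) ≤ l0)).symm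
  have hcard : (F.card : ℝ) = F1.card + F2.card := by
    rw [hcardN, Nat.cast_add]
  have d1 : (F1.card : ℝ) ≤ 3 * X ^ (2 / 3 + ε) := hsmall X hX b1 F1 (fun t ht => by
    obtain ⟨e1, e2⟩ := Finset.mem_filter.1 ht
    obtain ⟨a1, a2, a3⟩ := hF t e1
    exact ⟨a1, a2, by rw [← hl0]; exact e2⟩)
  have d2 : (F2.card : ℝ) ≤ D * (4 * k + 1) * X ^ (2 / 3 + ε) * H := by
    rcases le_or_gt l0 H with hcase | hcase
    · obtain ⟨J, hJ, G, hG, hGc⟩ := scales hk1 hl0p hcase F2 (fun t ht => by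
        obtain ⟨e1, e2⟩ := Finset.mem_filter.1 ht
        exact ⟨(not_le.1 e2).le, (hF t e1).2.2⟩)
      have hρ := rho_gt hk1
      have hGj : ∀ j ∈ Finset.range (J + 1), ((G j).card : ℝ) ≤
          D * X ^ (2 / 3 + ε) * (l0 * rho k ^ j) := by
        intro j hj
        have p1 : 1 ≤ rho k ^ j := one_le_pow₀ hρ.le
        have p2 : rho k ^ j ≤ rho k ^ J := pow_le_pow_right₀ hρ.le
          (Nat.lt_succ_iff.1 (Finset.mem_range.1 hj))
        have p3 : l0 * rho k ^ j ≤ X := by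
          have := mul_le_mul_of_nonneg_left p2 hl0p.le
          linarith
        have p4 : l0 ≤ l0 * rho k ^ j := by nlinarith
        have h1 := hscale X hX b2 (l0 * rho k ^ j) (by rw [← hl0]; exact p4) p3 (G j)
          (fun t ht => by
            obtain ⟨f1, f2⟩ := hG j t ht
            obtain ⟨e1, e2⟩ := Finset.mem_filter.1 f1
            exact ⟨(hF t e1).1, f2, (hF t e1).2.1⟩)
        refine h1.trans (mul_le_mul_of_nonneg_right (mul_le_mul_of_nonneg_left ?_ hD.le)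
          (by positivity))
        exact Real.rpow_le_rpow_of_exponent_le hX (by linarith)
      have h3 : (F2.card : ℝ) ≤ ∑ j ∈ Finset.range (J + 1), ((G j).card : ℝ) := by
        exact_mod_cast hGc
      refine (h3.trans (Finset.sum_le_sum hGj)).trans ?_
      rw [← Finset.mul_sum]
      refine (mul_le_mul_of_nonneg_left (geom_le hk1 hl0p hJ) (by positivity)).trans
        (le_of_eq ?_)
      ring
    · have : F2 = ∅ := by
        rw [Finset.eq_empty_iff_forall_notMem]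
        intro t ht
        obtain ⟨e1, e2⟩ := Finset.mem_filter.1 ht
        have := (hF t e1).2.2
        linarith [not_le.1 e2]
      rw [this, Finset.card_empty, Nat.cast_zero]
      positivity
  have d3 : 3 * X ^ (2 / 3 + ε) ≤ 3 * X ^ (2 / 3 + ε) * H := by
    have : 0 < X ^ (2 / 3 + ε) := by positivity
    nlinarith
  rw [hcard]
  linarith

/-- **the main count** -/
theorem main_upper (ε : ℝ) (hε : 0 < ε) : ∃ D : ℝ, 0 < D ∧ ∀ X H : ℝ, 1 ≤ X → 1 ≤ H →
    ∀ F : Finset (Fin 3 → ℕ), (∀ t ∈ F, Tr t ∧ rr t 0 + rr t 1 + rr t 2 ≤ Real.log X ∧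
      Real.log (t 2) ≤ H) → (F.card : ℝ) ≤ D * X ^ (2 / 3 + ε) * H := by
  obtain ⟨D1, hD1, L0, hL0, hmid⟩ := mid_upper ε hε
  obtain ⟨D2, hD2, htriv⟩ := trivial_upper (1 / 6) (by norm_num)
  refine ⟨D1 + D2 * (Real.exp (2 * L0) * 2 + 3), by positivity, fun X H hX hH F hF => ?_⟩
  have hX0 : 0 < X := by linarith
  have hH0 : 0 < H := by linarith
  have hXp : 1 ≤ X ^ (2 / 3 + ε) := Real.one_le_rpow hX (by positivity)
  have hlH : 0 ≤ Real.log H := Real.log_nonneg hH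
  have hlH1 : Real.log H ≤ H - 1 := Real.log_le_sub_one_of_pos hH0
  have hXpH : 0 < X ^ (2 / 3 + ε) * H := by positivity
  have hE : 0 < Real.exp (2 * L0) := Real.exp_pos _
  by_cases hc : L0 ≤ Real.log X
  · by_cases hc2 : H ≤ X
    · refine (hmid X H hX hc hH hc2 F hF).trans ?_
      rw [mul_assoc, mul_assoc]
      refine mul_le_mul_of_nonneg_right ?_ hXpH.le
      have : 0 < D2 * (Real.exp (2 * L0) * 2 + 3) := by positivity
      linarith
    · push Not at hc2
      refine (htriv X H hX hH F hF).trans ?_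
      have e1 : X ^ ((1 : ℝ) + 1 / 6) ≤ X ^ (2 / 3 + ε) * H ^ ((1 : ℝ) / 2) := by
        have e2 : X ^ ((1 : ℝ) + 1 / 6) = X ^ ((2 : ℝ) / 3) * X ^ ((1 : ℝ) / 2) := by
          rw [← Real.rpow_add hX0]
          norm_num
        rw [e2]
        refine mul_le_mul ?_ ?_ (by positivity) (by positivity)
        · exact Real.rpow_le_rpow_of_exponent_le hX (by linarith)
        · exact Real.rpow_le_rpow hX0.le hc2.le (by norm_num)
      have e3 : Real.log H ≤ 2 * H ^ ((1 : ℝ) / 2) := by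
        have := Real.log_le_rpow_div hH0.le (ε := 1 / 2) (by norm_num)
        linarith
      have e4 : 1 ≤ H ^ ((1 : ℝ) / 2) := Real.one_le_rpow hH (by norm_num)
      have e5 : H ^ ((1 : ℝ) / 2) * H ^ ((1 : ℝ) / 2) = H := by
        rw [← Real.rpow_add hH0]
        norm_num
      have e6 : X ^ ((1 : ℝ) + 1 / 6) * (1 + Real.log H) ≤
          3 * (X ^ (2 / 3 + ε) * H) := by
        calc X ^ ((1 : ℝ) + 1 / 6) * (1 + Real.log H) ≤
            (X ^ (2 / 3 + ε) * H ^ ((1 : ℝ) / 2)) * (3 * H ^ ((1 : ℝ) / 2)) :=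
              mul_le_mul e1 (by linarith) (by linarith) (by positivity)
          _ = 3 * (X ^ (2 / 3 + ε) * (H ^ ((1 : ℝ) / 2) * H ^ ((1 : ℝ) / 2))) := by ring
          _ = _ := by rw [e5]
      calc D2 * X ^ ((1 : ℝ) + 1 / 6) * (1 + Real.log H) =
          D2 * (X ^ ((1 : ℝ) + 1 / 6) * (1 + Real.log H)) := by ring
        _ ≤ D2 * (3 * (X ^ (2 / 3 + ε) * H)) := mul_le_mul_of_nonneg_left e6 hD2.le
        _ = (D2 * 3) * (X ^ (2 / 3 + ε) * H) := by ring
        _ ≤ (D1 + D2 * (Real.exp (2 * L0) * 2 + 3)) * (X ^ (2 / 3 + ε) * H) := by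
            refine mul_le_mul_of_nonneg_right ?_ hXpH.le
            have : 0 < D2 * (Real.exp (2 * L0) * 2) := by positivity
            linarith
        _ = _ := by ring
  · push Not at hc
    refine (htriv X H hX hH F hF).trans ?_
    have e1 : X ^ ((1 : ℝ) + 1 / 6) ≤ Real.exp (2 * L0) := by
      rw [Real.rpow_def_of_pos hX0]
      refine Real.exp_le_exp.2 ?_
      have : 0 ≤ Real.log X := Real.log_nonneg hX
      nlinarith
    have e2 : X ^ ((1 : ℝ) + 1 / 6) * (1 + Real.log H) ≤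
        Real.exp (2 * L0) * (X ^ (2 / 3 + ε) * H) := by
      refine mul_le_mul e1 ?_ (by linarith) hE.le
      nlinarith
    calc D2 * X ^ ((1 : ℝ) + 1 / 6) * (1 + Real.log H) =
        D2 * (X ^ ((1 : ℝ) + 1 / 6) * (1 + Real.log H)) := by ring
      _ ≤ D2 * (Real.exp (2 * L0) * (X ^ (2 / 3 + ε) * H)) :=
          mul_le_mul_of_nonneg_left e2 hD2.le
      _ = (D2 * Real.exp (2 * L0)) * (X ^ (2 / 3 + ε) * H) := by ring
      _ ≤ (D1 + D2 * (Real.exp (2 * L0) * 2 + 3)) * (X ^ (2 / 3 + ε) * H) := by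
          refine mul_le_mul_of_nonneg_right ?_ hXpH.le
          have : 0 < D2 * Real.exp (2 * L0) := by positivity
          nlinarith
      _ = _ := by ring

end Pool.Agent.TH867.SR
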