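import Pool.Agent.TH867.SR.Num
import Pool.Agent.H785R2.ABC.A12

/-! From one scale to all scales (helper867). -/

set_option autoImplicit false

namespace Pool.Agent.TH867.SR

open Finset

/-- `∑_{m ≤ M} C ^ ω(m) ≪ M ^ (1 + ε)` -/
theorem sum_omega (C : ℝ) (hC : 1 ≤ C) (ε : ℝ) (hε : 0 < ε) : ∃ D : ℝ, 0 < D ∧ ∀ M : ℕ,
    ∑ m ∈ Finset.Icc 1 M, C ^ m.primeFactors.card ≤ D * (M : ℝ) ^ (1 + ε) := by
  obtain ⟨D, hD, h⟩ := Pool.Agent.H785R2.ABC.stmtA1 C hC ε hε
  refine ⟨D, hD, fun M => ?_⟩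
  rcases Nat.eq_zero_or_pos M with rfl | hM
  · simp only [Finset.Icc_eq_empty_of_lt Nat.zero_lt_one, Finset.sum_empty]
    positivity
  · have hM0 : (0 : ℝ) < M := by exact_mod_cast hM
    calc ∑ m ∈ Finset.Icc 1 M, C ^ m.primeFactors.card ≤
        ∑ _m ∈ Finset.Icc 1 M, D * (M : ℝ) ^ ε := by
          refine Finset.sum_le_sum fun m hm => ?_
          obtain ⟨h1, h2⟩ := Finset.mem_Icc.1 hm
          refine (h m h1).trans (mul_le_mul_of_nonneg_left ?_ hD.le)
          exact Real.rpow_le_rpow (Nat.cast_nonneg _) (by exact_mod_cast h2) hε.le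
      _ = D * (M : ℝ) ^ (1 + ε) := by
          rw [Finset.sum_const, Nat.card_Icc, nsmul_eq_mul, Real.rpow_add hM0, Real.rpow_one]
          simp only [Nat.add_sub_cancel]
          ring

/-- light triples of one scale -/
theorem light_scale {k : ℕ} (hk : 1 ≤ k) : ∃ D : ℝ, 0 < D ∧ ∀ (M l : ℝ), 1 ≤ M →
    2 * (k : ℝ) ≤ l → ∀ F : Finset (Fin 3 → ℕ), (∀ t ∈ F, Tr t ∧ Scale k l t ∧
      ∃ S : Finset ℕ, (∀ q ∈ S, q.Prime) ∧ Light k S t ∧ ((∏ q ∈ S, q : ℕ) : ℝ) ≤ M) →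
    (F.card : ℝ) ≤ D * M ^ (1 + 1 / (k : ℝ)) := by
  classical
  have hk0 : (0 : ℝ) < k := by exact_mod_cast hk
  obtain ⟨D, hD, h⟩ := sum_omega ((2 : ℝ) ^ (18 * k)) (one_le_pow₀ (by norm_num)) (1 / (k : ℝ))
    (by positivity)
  refine ⟨2 ^ (18 * k) * D, by positivity, fun M l hM hl F hF => ?_⟩
  have h1 : F.card ≤ ∑ m ∈ Finset.Icc 1 ⌊M⌋₊, 2 ^ (18 * k * (m.primeFactors.card + 1)) := by
    have hsub : F ⊆ (Finset.Icc 1 ⌊M⌋₊).biUnion (fun m =>
        F.filter fun t => Light k m.primeFactors t) := by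
      intro t ht
      obtain ⟨a1, a2, S, a3, a4, a5⟩ := hF t ht
      rw [Finset.mem_biUnion]
      refine ⟨∏ q ∈ S, q, Finset.mem_Icc.2 ⟨Finset.prod_pos fun q hq => (a3 q hq).pos,
        Nat.le_floor a5⟩, Finset.mem_filter.2 ⟨ht, ?_⟩⟩
      rw [Nat.primeFactors_prod a3]
      exact a4
    refine (Finset.card_le_card hsub).trans (Finset.card_biUnion_le.trans
      (Finset.sum_le_sum fun m _ => ?_))
    refine card_light hk (fun q hq => Nat.prime_of_mem_primeFactors hq) hl _ fun t ht => ?_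
    obtain ⟨b1, b2⟩ := Finset.mem_filter.1 ht
    exact ⟨(hF t b1).1, (hF t b1).2.1, b2⟩
  have h2 : (F.card : ℝ) ≤ ∑ m ∈ Finset.Icc 1 ⌊M⌋₊,
      (2 : ℝ) ^ (18 * k) * ((2 : ℝ) ^ (18 * k)) ^ m.primeFactors.card := by
    have h3 : (F.card : ℝ) ≤ ((∑ m ∈ Finset.Icc 1 ⌊M⌋₊,
        2 ^ (18 * k * (m.primeFactors.card + 1)) : ℕ) : ℝ) := by exact_mod_cast h1
    refine h3.trans (le_of_eq ?_)
    push_cast
    refine Finset.sum_congr rfl fun m _ => ?_
    rw [pow_mul, pow_succ]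
    ring
  rw [← Finset.mul_sum] at h2
  refine h2.trans ?_
  rw [mul_assoc]
  refine mul_le_mul_of_nonneg_left ?_ (by positivity)
  refine (h ⌊M⌋₊).trans (mul_le_mul_of_nonneg_left ?_ hD.le)
  exact Real.rpow_le_rpow (Nat.cast_nonneg _) (Nat.floor_le (by linarith)) (by positivity)

/-- the ratio of two scales -/
noncomputable def rho (k : ℕ) : ℝ := 1 + 1 / (4 * k)

theorem rho_gt {k : ℕ} (hk : 1 ≤ k) : 1 < rho k := by
  have hk0 : (0 : ℝ) < k := by exact_mod_cast hk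
  unfold rho
  have : 0 < 1 / (4 * (k : ℝ)) := by positivity
  linarith

/-- decomposition into scales -/
theorem scales {k : ℕ} (hk : 1 ≤ k) {l0 H : ℝ} (hl0 : 0 < l0) (hH : l0 ≤ H)
    (F : Finset (Fin 3 → ℕ)) (hF : ∀ t ∈ F, l0 ≤ Real.log (t 2) ∧ Real.log (t 2) ≤ H) :
    ∃ J : ℕ, l0 * rho k ^ J ≤ H ∧ ∃ G : ℕ → Finset (Fin 3 → ℕ),
      (∀ j, ∀ t ∈ G j, t ∈ F ∧ Scale k (l0 * rho k ^ j) t) ∧
      F.card ≤ ∑ j ∈ Finset.range (J + 1), (G j).card := by
  classical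
  have hρ := rho_gt hk
  obtain ⟨J, hJ1, hJ2⟩ := exists_nat_pow_near (x := H / l0) (y := rho k)
    (by rw [le_div_iff₀ hl0]; linarith) hρ
  refine ⟨J, ?_, fun j => F.filter fun t => Scale k (l0 * rho k ^ j) t, ?_, ?_⟩
  · rw [le_div_iff₀ hl0] at hJ1
    linarith
  · intro j t ht
    exact Finset.mem_filter.1 ht
  · refine (Finset.card_le_card ?_).trans Finset.card_biUnion_le
    intro t ht
    obtain ⟨h1, h2⟩ := hF t ht
    obtain ⟨j, hj1, hj2⟩ := exists_nat_pow_near (x := Real.log (t 2) / l0) (y := rho k)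
      (by rw [le_div_iff₀ hl0]; linarith) hρ
    rw [Finset.mem_biUnion]
    refine ⟨j, ?_, Finset.mem_filter.2 ⟨ht, ?_, ?_⟩⟩
    · rw [Finset.mem_range]
      have h3 : rho k ^ j < rho k ^ (J + 1) := by
        refine lt_of_le_of_lt (hj1.trans ?_) hJ2
        exact div_le_div_of_nonneg_right h2 hl0.le
      exact (pow_lt_pow_iff_right₀ hρ).1 h3
    · rw [le_div_iff₀ hl0] at hj1
      linarith
    · rw [div_lt_iff₀ hl0, pow_succ] at hj2
      have e : (1 + 1 / (4 * (k : ℝ))) = rho k := rfl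
      rw [e]
      linarith

/-- triples of bounded height -/
theorem small_height (h0 : ℝ) (F : Finset (Fin 3 → ℕ))
    (hF : ∀ t ∈ F, Tr t ∧ Real.log (t 2) ≤ h0) :
    F.card ≤ (⌊Real.exp h0⌋₊ + 1) ^ 2 := by
  classical
  have h1 : F.card ≤ ((Finset.range (⌊Real.exp h0⌋₊ + 1)) ×ˢ
      (Finset.range (⌊Real.exp h0⌋₊ + 1))).card := by
    refine Finset.card_le_card_of_injOn (fun t => (t 0, t 1)) ?_ ?_
    · intro t ht
      obtain ⟨a1, a2⟩ := hF t ht
      have hle : ∀ j, t j ≤ ⌊Real.exp h0⌋₊ := by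
        intro j
        refine (a1.le2 j).trans (Nat.le_floor ?_)
        rw [← Real.log_le_iff_le_exp (by exact_mod_cast a1.pos' 2)]
        exact a2
      simp only [Finset.coe_product, Finset.coe_range, Set.mem_prod, Set.mem_Iio]
      exact ⟨Nat.lt_succ_of_le (hle 0), Nat.lt_succ_of_le (hle 1)⟩
    · intro t ht t' ht' he
      simp only [Prod.mk.injEq] at he
      have a1 := (hF t ht).1
      have b1 := (hF t' ht').1
      funext j
      fin_cases j
      · exact he.1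
      · exact he.2
      · show t 2 = t' 2
        rw [← a1.add, ← b1.add, he.1, he.2]
  rw [Finset.card_product, Finset.card_range] at h1
  rw [sq]
  exact h1

/-- light triples of all scales -/
theorem light_total {k : ℕ} (hk : 1 ≤ k) : ∃ D : ℝ, 0 < D ∧ ∀ (M H : ℝ), 1 ≤ M → 1 ≤ H →
    ∀ F : Finset (Fin 3 → ℕ), (∀ t ∈ F, Tr t ∧ Real.log (t 2) ≤ H ∧
      (2 * (k : ℝ) ≤ Real.log (t 2) →
      ∃ S : Finset ℕ, (∀ q ∈ S, q.Prime) ∧ Light k S t ∧ ((∏ q ∈ S, q : ℕ) : ℝ) ≤ M)) →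
    (F.card : ℝ) ≤ D * M ^ (1 + 1 / (k : ℝ)) * (1 + Real.log H) := by
  classical
  have hk0 : (0 : ℝ) < k := by exact_mod_cast hk
  have hk1 : (1 : ℝ) ≤ k := by exact_mod_cast hk
  obtain ⟨D, hD, h⟩ := light_scale hk
  have hρ := rho_gt hk
  have hlρ : 0 < Real.log (rho k) := Real.log_pos hρ
  obtain ⟨D0, hD0⟩ : ∃ D0 : ℝ, D0 = ((⌊Real.exp (2 * k)⌋₊ : ℝ) + 1) ^ 2 := ⟨_, rfl⟩
  have hD0' : 0 ≤ D0 := by rw [hD0]; positivity
  refine ⟨D0 + D * (1 + 1 / Real.log (rho k)), by positivity, fun M H hM hH F hF => ?_⟩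
  have hlH : 0 ≤ Real.log H := Real.log_nonneg hH
  have hMp : 1 ≤ M ^ (1 + 1 / (k : ℝ)) := Real.one_le_rpow hM (by positivity)
  set F1 := F.filter fun t => Real.log (t 2) ≤ 2 * k with hF1
  set F2 := F.filter fun t => ¬ Real.log (t 2) ≤ 2 * k with hF2
  have hcardN : F.card = F1.card + F2.card :=
    (Finset.card_filter_add_card_filter_not (s := F) (fun t => Real.log (t 2) ≤ 2 * k)).symm
  have hcard : (F.card : ℝ) = F1.card + F2.card := by
    rw [hcardN, Nat.cast_add]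
  have c1 : (F1.card : ℝ) ≤ D0 := by
    have h1 := small_height (2 * k) F1 (fun t ht => by
      obtain ⟨b1, b2⟩ := Finset.mem_filter.1 ht
      exact ⟨(hF t b1).1, b2⟩)
    rw [hD0]
    exact_mod_cast h1
  have c2 : (F2.card : ℝ) ≤ D * M ^ (1 + 1 / (k : ℝ)) * ((1 + 1 / Real.log (rho k)) *
      (1 + Real.log H)) := by
    rcases le_or_gt (2 * (k : ℝ)) H with hcase | hcase
    · obtain ⟨J, hJ, G, hG, hGc⟩ := scales hk (l0 := 2 * k) (H := H) (by positivity) hcase F2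
        (fun t ht => by
          obtain ⟨b1, b2⟩ := Finset.mem_filter.1 ht
          exact ⟨(not_le.1 b2).le, (hF t b1).2.1⟩)
      have hGj : ∀ j ∈ Finset.range (J + 1), ((G j).card : ℝ) ≤ D * M ^ (1 + 1 / (k : ℝ)) := by
        intro j _
        refine h M (2 * k * rho k ^ j) hM ?_ (G j) fun t ht => ?_
        · have : 1 ≤ rho k ^ j := one_le_pow₀ hρ.le
          nlinarith
        · obtain ⟨d1, d2⟩ := hG j t ht
          obtain ⟨b1, b2⟩ := Finset.mem_filter.1 d1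
          exact ⟨(hF t b1).1, d2, (hF t b1).2.2 (not_le.1 b2).le⟩
      have h3 : (F2.card : ℝ) ≤ ∑ j ∈ Finset.range (J + 1), ((G j).card : ℝ) := by
        exact_mod_cast hGc
      refine (h3.trans (Finset.sum_le_sum hGj)).trans ?_
      rw [Finset.sum_const, Finset.card_range, nsmul_eq_mul, mul_comm]
      refine mul_le_mul_of_nonneg_left ?_ (by positivity)
      have h4 : (J : ℝ) * Real.log (rho k) ≤ Real.log H := by
        rw [← Real.log_pow]
        refine Real.log_le_log (by positivity) ?_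
        refine le_trans ?_ hJ
        have : 0 < rho k ^ J := by positivity
        nlinarith
      have h5 : (J : ℝ) ≤ 1 / Real.log (rho k) * Real.log H := by
        rw [one_div, ← div_eq_inv_mul, le_div_iff₀ hlρ]
        exact h4
      push_cast
      have h6 : 0 < 1 / Real.log (rho k) := by positivity
      nlinarith
    · have : F2 = ∅ := by
        rw [Finset.eq_empty_iff_forall_notMem]
        intro t ht
        obtain ⟨b1, b2⟩ := Finset.mem_filter.1 ht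
        have := (hF t b1).2.1
        linarith [not_le.1 b2]
      rw [this, Finset.card_empty, Nat.cast_zero]
      positivity
  rw [hcard]
  have c3 : D0 ≤ D0 * M ^ (1 + 1 / (k : ℝ)) * (1 + Real.log H) := by
    have hD00 : 0 ≤ D0 := by rw [hD0]; positivity
    have : 1 ≤ M ^ (1 + 1 / (k : ℝ)) * (1 + Real.log H) := by nlinarith
    calc D0 = D0 * 1 := (mul_one _).symm
      _ ≤ D0 * (M ^ (1 + 1 / (k : ℝ)) * (1 + Real.log H)) := mul_le_mul_of_nonneg_left this hD00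
      _ = _ := by ring
  calc (F1.card : ℝ) + F2.card ≤ D0 * M ^ (1 + 1 / (k : ℝ)) * (1 + Real.log H) +
      D * M ^ (1 + 1 / (k : ℝ)) * ((1 + 1 / Real.log (rho k)) * (1 + Real.log H)) := by linarith
    _ = _ := by ring

end Pool.Agent.TH867.SR
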