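import Pool.Agent.TH867.SR.Fib

/-! Triples with `log c ≤ (log X) ^ (2 + η)`: Rankin's method (helper867). -/

set_option autoImplicit false

namespace Pool.Agent.TH867.SR

open Finset

/-- `n ^ (-σ) ∏_{p ∣ n} p ^ (-a)` -/
noncomputable def ff (σ a : ℝ) (n : ℕ) : ℝ :=
  (n : ℝ) ^ (-σ) * ∏ p ∈ n.primeFactors, (p : ℝ) ^ (-a)

theorem ff_nonneg (σ a : ℝ) (n : ℕ) : 0 ≤ ff σ a n :=
  mul_nonneg (by positivity) (Finset.prod_nonneg fun p _ => by positivity)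

theorem ff_one (σ a : ℝ) : ff σ a 1 = 1 := by
  simp [ff]

theorem ff_mul (σ a : ℝ) {m n : ℕ} (h : Nat.Coprime m n) : ff σ a (m * n) = ff σ a m * ff σ a n := by
  unfold ff
  rw [h.primeFactors_mul, Finset.prod_union h.disjoint_primeFactors, Nat.cast_mul,
    Real.mul_rpow (Nat.cast_nonneg _) (Nat.cast_nonneg _)]
  ring

theorem ff_pow (σ a : ℝ) {p : ℕ} (hp : p.Prime) (n : ℕ) :
    ff σ a (p ^ (n + 1)) = (p : ℝ) ^ (-a) * (p : ℝ) ^ (-σ) * ((p : ℝ) ^ (-σ)) ^ n := by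
  unfold ff
  rw [Nat.primeFactors_prime_pow (Nat.succ_ne_zero n) hp, Finset.prod_singleton]
  have h1 : ((p ^ (n + 1) : ℕ) : ℝ) ^ (-σ) = ((p : ℝ) ^ (-σ)) ^ (n + 1) := by
    push_cast
    rw [← Real.rpow_natCast, ← Real.rpow_mul (Nat.cast_nonneg _), ← Real.rpow_natCast,
      ← Real.rpow_mul (Nat.cast_nonneg _)]
    congr 1
    ring
  rw [h1, pow_succ]
  ring

theorem y_lt {σ : ℝ} (hσ : 0 < σ) {p : ℕ} (hp : p.Prime) : (p : ℝ) ^ (-σ) < 1 :=
  Real.rpow_lt_one_of_one_lt_of_neg (by exact_mod_cast hp.one_lt) (by linarith)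

/-- `y / (1 - y) ≤ 2 / σ` for `y = p ^ (-σ)` -/
theorem y_bound {σ : ℝ} (hσ : 0 < σ) {p : ℕ} (hp : p.Prime) :
    (p : ℝ) ^ (-σ) * (1 - (p : ℝ) ^ (-σ))⁻¹ ≤ 2 / σ := by
  have hp0 : (0 : ℝ) < p := by exact_mod_cast hp.pos
  have hy := y_lt hσ hp
  have hy0 : 0 < (p : ℝ) ^ (-σ) := Real.rpow_pos_of_pos hp0 _
  have l2a := Real.log_two_gt_d9
  have hlog : 1 / 2 ≤ Real.log p := by
    have : Real.log 2 ≤ Real.log p := Real.log_le_log (by norm_num) (by exact_mod_cast hp.two_le)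
    linarith
  obtain ⟨u, hu⟩ : ∃ u, u = σ * Real.log p := ⟨_, rfl⟩
  have hyu : (p : ℝ) ^ (-σ) = Real.exp (-u) := by
    rw [Real.rpow_def_of_pos hp0, hu]
    congr 1
    ring
  have hu0 : σ / 2 ≤ u := by rw [hu]; nlinarith
  have h1 : Real.exp (-u) * (1 + u) ≤ 1 := by
    have h2 := Real.add_one_le_exp u
    have h3 : Real.exp (-u) * Real.exp u = 1 := by rw [← Real.exp_add]; simp
    have h4 := Real.exp_pos (-u)
    nlinarith
  rw [← div_eq_mul_inv, div_le_div_iff₀ (by linarith) hσ, hyu]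
  have h4 := Real.exp_pos (-u)
  nlinarith

theorem hasSum_ff {σ : ℝ} (hσ : 0 < σ) (a : ℝ) {p : ℕ} (hp : p.Prime) :
    HasSum (fun n : ℕ => ff σ a (p ^ n))
      ((p : ℝ) ^ (-a) * (p : ℝ) ^ (-σ) * (1 - (p : ℝ) ^ (-σ))⁻¹ + 1) := by
  have hp0 : (0 : ℝ) < p := by exact_mod_cast hp.pos
  have h1 : HasSum (fun n : ℕ => ff σ a (p ^ (n + 1)))
      ((p : ℝ) ^ (-a) * (p : ℝ) ^ (-σ) * (1 - (p : ℝ) ^ (-σ))⁻¹) := by
    simp only [ff_pow σ a hp]
    exact (hasSum_geometric_of_lt_one (by positivity) (y_lt hσ hp)).mul_left _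
  have h2 := (hasSum_nat_add_iff (f := fun n : ℕ => ff σ a (p ^ n)) 1).1 h1
  simpa [ff_one] using h2

theorem one_add_le {x β : ℝ} (hx : 0 ≤ x) (hβ : 0 < β) (hβ1 : β ≤ 1) :
    1 + x ≤ Real.exp (x ^ β / β) := by
  have h1 : (1 + x) ^ β ≤ Real.exp (x ^ β) := by
    refine (Real.rpow_add_le_add_rpow zero_le_one hx hβ.le hβ1).trans ?_
    rw [Real.one_rpow, add_comm]
    exact Real.add_one_le_exp _
  have h2 : ((1 + x) ^ β) ^ (1 / β) ≤ (Real.exp (x ^ β)) ^ (1 / β) :=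
    Real.rpow_le_rpow (by positivity) h1 (by positivity)
  rw [← Real.rpow_mul (by positivity), mul_one_div_cancel hβ.ne', Real.rpow_one,
    ← Real.exp_mul] at h2
  rwa [mul_one_div] at h2

/-- Rankin's bound for `∑_{s ≤ N} rad(s) ^ (-a)` -/
theorem rankin_sum {σ a β : ℝ} (hσ : 0 < σ) (hβ : 0 < β) (hβ1 : β ≤ 1) (haβ : 1 < a * β)
    (N : ℕ) (hN : 1 ≤ N) :
    ∑ s ∈ Finset.Icc 1 N, ∏ p ∈ s.primeFactors, (p : ℝ) ^ (-a) ≤
      Real.exp (σ * Real.log N + (2 / σ) ^ β * (∑' n : ℕ, ((n : ℝ) ^ (a * β))⁻¹) / β) := by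
  classical
  have ha : 0 < a := by
    by_contra h
    push Not at h
    nlinarith
  have hN0 : (0 : ℝ) < N := by exact_mod_cast hN
  have hsummable : Summable fun n : ℕ => ((n : ℝ) ^ (a * β))⁻¹ := Real.summable_nat_rpow_inv.2 haβ
  have hsum := (EulerProduct.summable_and_hasSum_smoothNumbers_prod_primesBelow_tsum
    (f := ff σ a) (ff_one σ a) (fun h => ff_mul σ a h)
    (fun {p} hp => by
      have h1 := (hasSum_ff hσ a hp).summable
      refine h1.congr fun n => ?_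
      rw [Real.norm_of_nonneg (ff_nonneg σ a _)]) (N + 1)).2
  -- the finite sum is at most the Euler product
  have hmem : ∀ s ∈ Finset.Icc 1 N, s ∈ Nat.smoothNumbers (N + 1) := by
    intro s hs
    obtain ⟨h1, h2⟩ := Finset.mem_Icc.1 hs
    rw [Nat.mem_smoothNumbers]
    refine ⟨by omega, fun p hp => ?_⟩
    exact Nat.lt_succ_of_le ((Nat.le_of_mem_primeFactorsList hp).trans h2)
  have hle : ∑ s ∈ Finset.Icc 1 N, ff σ a s ≤
      ∏ p ∈ (N + 1).primesBelow, ∑' n : ℕ, ff σ a (p ^ n) := by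
    have h3 := sum_le_hasSum ((Finset.Icc 1 N).subtype (fun d => d ∈ Nat.smoothNumbers (N + 1)))
      (fun m _ => ff_nonneg σ a m) hsum
    have h4 : ∑ d ∈ (Finset.Icc 1 N).subtype (fun d => d ∈ Nat.smoothNumbers (N + 1)),
        ff σ a (d : ℕ) = ∑ d ∈ Finset.Icc 1 N, ff σ a d :=
      Finset.sum_subtype_of_mem (fun d => ff σ a d) hmem
    rw [← h4]
    exact h3
  have hprod : ∏ p ∈ (N + 1).primesBelow, ∑' n : ℕ, ff σ a (p ^ n) ≤
      Real.exp ((2 / σ) ^ β * (∑' n : ℕ, ((n : ℝ) ^ (a * β))⁻¹) / β) := by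
    have h1 : ∀ p ∈ (N + 1).primesBelow, ∑' n : ℕ, ff σ a (p ^ n) ≤
        Real.exp ((2 / σ) ^ β * ((p : ℝ) ^ (a * β))⁻¹ / β) := by
      intro p hp
      have hpp := Nat.prime_of_mem_primesBelow hp
      have hp0 : (0 : ℝ) < p := by exact_mod_cast hpp.pos
      rw [(hasSum_ff hσ a hpp).tsum_eq, add_comm, mul_assoc]
      have h2 : 1 + (p : ℝ) ^ (-a) * ((p : ℝ) ^ (-σ) * (1 - (p : ℝ) ^ (-σ))⁻¹) ≤
          1 + (2 / σ) * (p : ℝ) ^ (-a) := by
        have h3 := mul_le_mul_of_nonneg_left (y_bound hσ hpp)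
          (Real.rpow_nonneg hp0.le (-a))
        linarith
      refine h2.trans ((one_add_le (by positivity) hβ hβ1).trans (le_of_eq ?_))
      congr 2
      rw [Real.mul_rpow (by positivity) (by positivity), ← Real.rpow_mul hp0.le, neg_mul,
        Real.rpow_neg hp0.le]
    refine (Finset.prod_le_prod (fun p hp => ?_) h1).trans ?_
    · rw [(hasSum_ff hσ a (Nat.prime_of_mem_primesBelow hp)).tsum_eq]
      have hy := y_lt hσ (Nat.prime_of_mem_primesBelow hp)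
      have : 0 < (1 - (p : ℝ) ^ (-σ))⁻¹ := inv_pos.2 (by linarith)
      positivity
    · rw [← Real.exp_sum]
      refine Real.exp_le_exp.2 ?_
      rw [← Finset.sum_div, ← Finset.mul_sum]
      refine div_le_div_of_nonneg_right (mul_le_mul_of_nonneg_left ?_ (by positivity)) hβ.le
      exact hsummable.sum_le_tsum _ (fun n _ => by positivity)
  have hlow : ∑ s ∈ Finset.Icc 1 N, ∏ p ∈ s.primeFactors, (p : ℝ) ^ (-a) ≤
      (N : ℝ) ^ σ * ∑ s ∈ Finset.Icc 1 N, ff σ a s := by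
    rw [Finset.mul_sum]
    refine Finset.sum_le_sum fun s hs => ?_
    obtain ⟨h1, h2⟩ := Finset.mem_Icc.1 hs
    have hs0 : (0 : ℝ) < s := by exact_mod_cast h1
    have h3 : 1 ≤ (N : ℝ) ^ σ * (s : ℝ) ^ (-σ) := by
      rw [Real.rpow_neg hs0.le, ← div_eq_mul_inv, one_le_div (by positivity)]
      exact Real.rpow_le_rpow hs0.le (by exact_mod_cast h2) hσ.le
    have h4 : 0 ≤ ∏ p ∈ s.primeFactors, (p : ℝ) ^ (-a) :=
      Finset.prod_nonneg fun p _ => by positivity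
    unfold ff
    rw [← mul_assoc]
    exact le_mul_of_one_le_left h4 h3
  refine hlow.trans ?_
  rw [Real.exp_add]
  refine mul_le_mul ?_ (hle.trans hprod) (Finset.sum_nonneg fun s _ => ff_nonneg σ a s)
    (Real.exp_pos _).le
  rw [Real.rpow_def_of_pos hN0, mul_comm]

end Pool.Agent.TH867.SR
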