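import Pool.Agent.W347.RA.CNT

/-! Triples `a + b = c`: sides, scales, light sets of primes, near triples, and the gap principle
with an arbitrary parameter `k` (helper867). -/

set_option autoImplicit false

namespace Pool.Agent.TH867.SR

open Finset

/-- coprime positive integers `t 0 ≤ t 1` with sum `t 2` -/
structure Tr (t : Fin 3 → ℕ) : Prop where
  pos : 0 < t 0
  le : t 0 ≤ t 1
  cop : Nat.Coprime (t 0) (t 1)
  add : t 0 + t 1 = t 2

/-- the product of the three members -/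
def N3 (t : Fin 3 → ℕ) : ℕ := t 0 * t 1 * t 2

/-- exponent of `q` in the product -/
def vv (t : Fin 3 → ℕ) (q : ℕ) : ℕ := (N3 t).factorization q

theorem Tr.pos' {t : Fin 3 → ℕ} (h : Tr t) (j : Fin 3) : 0 < t j := by
  have h0 := h.pos
  have h1 := h.le
  have h2 := h.add
  fin_cases j
  · exact h0
  · show 0 < t 1; omega
  · show 0 < t 2; omega

theorem Tr.le2 {t : Fin 3 → ℕ} (h : Tr t) (j : Fin 3) : t j ≤ t 2 := by
  have h0 := h.pos
  have h1 := h.le
  have h2 := h.add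
  fin_cases j
  · show t 0 ≤ t 2; omega
  · show t 1 ≤ t 2; omega
  · exact le_rfl

theorem Tr.cop' {t : Fin 3 → ℕ} (h : Tr t) {i j : Fin 3} (hij : i ≠ j) :
    Nat.Coprime (t i) (t j) := by
  have hc := h.cop
  have h2 := h.add
  have h02 : Nat.Coprime (t 0) (t 2) := by rw [← h2]; simpa using hc
  have h12 : Nat.Coprime (t 1) (t 2) := by rw [← h2]; simpa using hc.symm
  fin_cases i <;> fin_cases j
  · exact absurd rfl hij
  · exact hc
  · exact h02
  · exact hc.symm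
  · exact absurd rfl hij
  · exact h12
  · exact h02.symm
  · exact h12.symm
  · exact absurd rfl hij

theorem Tr.N3_pos {t : Fin 3 → ℕ} (h : Tr t) : 0 < N3 t :=
  Nat.mul_pos (Nat.mul_pos (h.pos' 0) (h.pos' 1)) (h.pos' 2)

theorem N3_eq (t : Fin 3 → ℕ) (j : Fin 3) : ∃ y : ℕ, N3 t = t j * y ∧
    ∀ q : ℕ, q.Prime → q ∣ y → ∃ i, i ≠ j ∧ q ∣ t i := by
  have key : ∀ x y q : ℕ, q.Prime → q ∣ x * y → q ∣ x ∨ q ∣ y := fun x y q hq h =>
    (Nat.Prime.dvd_mul hq).1 h
  fin_cases j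
  · refine ⟨t 1 * t 2, by simp only [N3]; show _ = t 0 * _; ring, fun q hq h => ?_⟩
    rcases key _ _ q hq h with h | h
    · exact ⟨1, by decide, h⟩
    · exact ⟨2, by decide, h⟩
  · refine ⟨t 0 * t 2, by simp only [N3]; show _ = t 1 * _; ring, fun q hq h => ?_⟩
    rcases key _ _ q hq h with h | h
    · exact ⟨0, by decide, h⟩
    · exact ⟨2, by decide, h⟩
  · refine ⟨t 0 * t 1, by simp only [N3]; show _ = t 2 * _; ring, fun q hq h => ?_⟩
    rcases key _ _ q hq h with h | h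
    · exact ⟨0, by decide, h⟩
    · exact ⟨1, by decide, h⟩

theorem Tr.uniq {t : Fin 3 → ℕ} (h : Tr t) {q : ℕ} (hq : q.Prime) {i j : Fin 3} (hi : q ∣ t i)
    (hj : q ∣ t j) : i = j := by
  by_contra hne
  exact Nat.not_coprime_of_dvd_of_dvd hq.one_lt hi hj (h.cop' hne)

/-- the exponent in the product is the exponent in the member divisible by `q` -/
theorem Tr.vv_eq {t : Fin 3 → ℕ} (h : Tr t) {q : ℕ} (hq : q.Prime) {j : Fin 3} (hj : q ∣ t j) :
    vv t q = (t j).factorization q := by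
  obtain ⟨y, hy, hy2⟩ := N3_eq t j
  have hy0 : y ≠ 0 := by
    rintro rfl
    have := h.N3_pos
    rw [hy, Nat.mul_zero] at this
    exact lt_irrefl _ this
  have hqy : ¬ q ∣ y := fun hd => by
    obtain ⟨i, hi, hi2⟩ := hy2 q hq hd
    exact hi (h.uniq hq hi2 hj)
  rw [vv, hy, Nat.factorization_mul (h.pos' j).ne' hy0, Finsupp.add_apply,
    Nat.factorization_eq_zero_of_not_dvd hqy, Nat.add_zero]

theorem Tr.vv_zero {t : Fin 3 → ℕ} (h : Tr t) {q : ℕ} (hq : q.Prime) (hj : ∀ j, ¬ q ∣ t j) :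
    vv t q = 0 := by
  rw [vv]
  apply Nat.factorization_eq_zero_of_not_dvd
  intro hd
  rw [N3] at hd
  rcases (Nat.Prime.dvd_mul hq).1 hd with h4 | h4
  · rcases (Nat.Prime.dvd_mul hq).1 h4 with h5 | h5
    · exact hj 0 h5
    · exact hj 1 h5
  · exact hj 2 h4

/-- all the members of two triples determine the same class modulo a common divisor of the
members of one side -/
theorem dvd_det {t t' : Fin 3 → ℕ} (h : Tr t) (h' : Tr t') {j : Fin 3} {d : ℕ} (hd : d ∣ t j)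
    (hd' : d ∣ t' j) : (d : ℤ) ∣ (t 0 : ℤ) * t' 1 - t' 0 * t 1 := by
  have e1 : (d : ℤ) ∣ (t j : ℤ) := Int.natCast_dvd_natCast.2 hd
  have e2 : (d : ℤ) ∣ (t' j : ℤ) := Int.natCast_dvd_natCast.2 hd'
  fin_cases j
  · exact dvd_sub (e1.mul_right _) (e2.mul_right _)
  · exact dvd_sub (e2.mul_left _) (e1.mul_left _)
  · have a1 : (t 0 : ℤ) + t 1 = t 2 := by exact_mod_cast h.add
    have a2 : (t' 0 : ℤ) + t' 1 = t' 2 := by exact_mod_cast h'.add
    have e3 : (t 0 : ℤ) * t' 1 - t' 0 * t 1 = t 0 * t' 2 - t' 0 * t 2 := by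
      rw [← a1, ← a2]; ring
    rw [e3]
    exact dvd_sub (e2.mul_left _) (e1.mul_left _)

/-- `ℓ ≤ log c ≤ (1 + 1/(4k)) ℓ` -/
def Scale (k : ℕ) (l : ℝ) (t : Fin 3 → ℕ) : Prop :=
  l ≤ Real.log (t 2) ∧ Real.log (t 2) ≤ (1 + 1 / (4 * k)) * l

/-- the part of `a b c` prime to `S` is at most `c ^ (1 - 1/k)` -/
def Light (k : ℕ) (S : Finset ℕ) (t : Fin 3 → ℕ) : Prop :=
  Real.log (N3 t) - (1 - 1 / (k : ℝ)) * Real.log (t 2) ≤ ∑ q ∈ S, (vv t q : ℝ) * Real.log q

/-- the primes of `S` divide the same members, with about the same exponents -/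
structure Near (S : Finset ℕ) (η : ℝ) (t t' : Fin 3 → ℕ) : Prop where
  side : ∀ q ∈ S, ∀ j, q ∣ t j ↔ q ∣ t' j
  sum : ∑ q ∈ S, |((vv t q : ℝ) - vv t' q) * Real.log q| ≤ η

theorem Near.symm {S : Finset ℕ} {η : ℝ} {t t' : Fin 3 → ℕ} (h : Near S η t t') :
    Near S η t' t := by
  refine ⟨fun q hq j => (h.side q hq j).symm, ?_⟩
  refine le_trans (le_of_eq (Finset.sum_congr rfl fun q _ => ?_)) h.sum
  rw [← abs_neg]
  congr 1
  ring

theorem pow_min_dvd {t t' : Fin 3 → ℕ} (h : Tr t) (h' : Tr t') {q : ℕ} (hq : q.Prime)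
    (hs : ∀ j, q ∣ t j ↔ q ∣ t' j) :
    ((q ^ min (vv t q) (vv t' q) : ℕ) : ℤ) ∣ (t 0 : ℤ) * t' 1 - t' 0 * t 1 := by
  by_cases hj : ∃ j, q ∣ t j
  · obtain ⟨j, hj⟩ := hj
    have hj' := (hs j).1 hj
    refine dvd_det h h' (j := j) ?_ ?_
    · rw [h.vv_eq hq hj]
      exact (pow_dvd_pow q (min_le_left _ _)).trans (Nat.ordProj_dvd _ _)
    · rw [h'.vv_eq hq hj']
      exact (pow_dvd_pow q (min_le_right _ _)).trans (Nat.ordProj_dvd _ _)
  · have h0 : vv t q = 0 := h.vv_zero hq fun j hd => hj ⟨j, hd⟩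
    rw [h0]
    simp

theorem log_N3 {t : Fin 3 → ℕ} (h : Tr t) :
    Real.log (N3 t) = Real.log (t 0) + Real.log (t 1) + Real.log (t 2) := by
  have h0 : (0 : ℝ) < t 0 := by exact_mod_cast h.pos' 0
  have h1 : (0 : ℝ) < t 1 := by exact_mod_cast h.pos' 1
  have h2 : (0 : ℝ) < t 2 := by exact_mod_cast h.pos' 2
  rw [N3]
  push_cast
  rw [Real.log_mul (by positivity) h2.ne', Real.log_mul h0.ne' h1.ne']

theorem log_one_ge {t : Fin 3 → ℕ} (h : Tr t) : Real.log (t 2) - Real.log 2 ≤ Real.log (t 1) := by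
  have h1 : (0 : ℝ) < t 1 := by exact_mod_cast h.pos' 1
  have h2 : (0 : ℝ) < t 2 := by exact_mod_cast h.pos' 2
  rw [← Real.log_div h2.ne' (by norm_num)]
  apply Real.log_le_log (by positivity)
  have e1 := h.le
  have e2 := h.add
  rw [div_le_iff₀ (by norm_num)]
  exact_mod_cast (by omega : t 2 ≤ t 1 * 2)

theorem log_prod_pow {S : Finset ℕ} (hS : ∀ q ∈ S, q.Prime) (f : ℕ → ℕ) :
    Real.log ((∏ q ∈ S, q ^ f q : ℕ) : ℝ) = ∑ q ∈ S, (f q : ℝ) * Real.log q := by
  push_cast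
  rw [Real.log_prod]
  · exact Finset.sum_congr rfl fun q _ => by rw [Real.log_pow]
  · intro q hq
    have : (0 : ℝ) < q := by exact_mod_cast (hS q hq).pos
    exact (pow_pos this _).ne'

theorem log_prime_nonneg {q : ℕ} (hq : q.Prime) : 0 ≤ Real.log (q : ℝ) :=
  Real.log_nonneg (by exact_mod_cast hq.one_lt.le)

/-- sum of minima of near exponents -/
theorem sum_min_ge {S : Finset ℕ} (hS : ∀ q ∈ S, q.Prime) {η : ℝ} {f g : ℕ → ℕ}
    (h : ∑ q ∈ S, |((f q : ℝ) - g q) * Real.log q| ≤ η) :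
    ∑ q ∈ S, (f q : ℝ) * Real.log q - η ≤ ∑ q ∈ S, ((min (f q) (g q) : ℕ) : ℝ) * Real.log q := by
  have hu : ∀ q ∈ S, (f q : ℝ) * Real.log q - |((f q : ℝ) - g q) * Real.log q| ≤
      ((min (f q) (g q) : ℕ) : ℝ) * Real.log q := by
    intro q hq
    have h5 := le_abs_self (((f q : ℝ) - g q) * Real.log q)
    have h6 := abs_nonneg (((f q : ℝ) - g q) * Real.log q)
    rcases le_total (f q) (g q) with h | h
    · rw [min_eq_left h]
      linarith
    · rw [min_eq_right h]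
      nlinarith
  have hsum := Finset.sum_le_sum hu
  rw [Finset.sum_sub_distrib] at hsum
  linarith

theorem core {k : ℕ} (hk : 1 ≤ k) {S : Finset ℕ} {l : ℝ} (hS : ∀ q ∈ S, q.Prime)
    (hl : 2 * (k : ℝ) ≤ l) {t t' : Fin 3 → ℕ} (h : Tr t) (h' : Tr t') (hs : Scale k l t)
    (hs' : Scale k l t') (hL : Light k S t) (hN : Near S (l / (4 * k)) t t')
    (hne : t 0 * t' 1 ≠ t' 0 * t 1)
    (hle : (((t 0 : ℤ) * t' 1 - t' 0 * t 1).natAbs) ≤ t 0 * t' 1) : False := by
  classical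
  have hk0 : (0 : ℝ) < k := by exact_mod_cast hk
  set D := (t 0 : ℤ) * t' 1 - t' 0 * t 1 with hD
  have hD0 : D ≠ 0 := by
    intro h0
    apply hne
    have : (t 0 : ℤ) * t' 1 = t' 0 * t 1 := by linarith
    exact_mod_cast this
  have hM : (∏ q ∈ S, q ^ min (vv t q) (vv t' q)) ∣ D.natAbs := by
    refine Finset.prod_dvd_of_isRelPrime ?_ ?_
    · intro q hq r hr hqr
      exact Nat.coprime_iff_isRelPrime.1 (Nat.coprime_pow_primes _ _ (hS q hq) (hS r hr) hqr)
    · intro q hq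
      exact Int.natCast_dvd.1 (pow_min_dvd h h' (hS q hq) (hN.side q hq))
  have hMle : (∏ q ∈ S, q ^ min (vv t q) (vv t' q)) ≤ t 0 * t' 1 :=
    (Nat.le_of_dvd (Int.natAbs_pos.2 hD0) hM).trans hle
  have hMpos : (0 : ℝ) < ((∏ q ∈ S, q ^ min (vv t q) (vv t' q) : ℕ) : ℝ) := by
    exact_mod_cast Finset.prod_pos fun q hq => pow_pos (hS q hq).pos _
  have p0 : (0 : ℝ) < t 0 := by exact_mod_cast h.pos' 0
  have p1' : (0 : ℝ) < t' 1 := by exact_mod_cast h'.pos' 1
  have hup : Real.log ((∏ q ∈ S, q ^ min (vv t q) (vv t' q) : ℕ) : ℝ) ≤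
      Real.log (t 0) + (1 + 1 / (4 * k)) * l := by
    calc Real.log ((∏ q ∈ S, q ^ min (vv t q) (vv t' q) : ℕ) : ℝ)
        ≤ Real.log ((t 0 : ℝ) * t' 1) := by
          apply Real.log_le_log hMpos
          exact_mod_cast hMle
      _ = Real.log (t 0) + Real.log (t' 1) := Real.log_mul p0.ne' p1'.ne'
      _ ≤ Real.log (t 0) + Real.log (t' 2) := by
          have : Real.log (t' 1 : ℝ) ≤ Real.log (t' 2 : ℝ) := by
            apply Real.log_le_log p1'
            exact_mod_cast h'.le2 1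
          linarith
      _ ≤ _ := by
          have := hs'.2
          linarith
  rw [log_prod_pow hS] at hup
  have hlow := sum_min_ge hS hN.sum
  have hLight := hL
  rw [Light, log_N3 h] at hLight
  have hbc := log_one_ge h
  have hs1 := hs.1
  have hl2 : Real.log 2 < 0.6931471808 := Real.log_two_lt_d9
  have e1 : (1 + 1 / (4 * (k : ℝ))) * l = l + l / (4 * k) := by ring
  have e2 : (1 - 1 / (k : ℝ)) * Real.log (t 2) = Real.log (t 2) - Real.log (t 2) / k := by ring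
  have e3 : l / k ≤ Real.log (t 2) / k := div_le_div_of_nonneg_right hs1 hk0.le
  have e4 : l / k = 4 * (l / (4 * k)) := by field_simp
  have e5 : 1 / 2 ≤ l / (4 * k) := by
    rw [div_le_div_iff₀ (by norm_num) (by positivity)]
    linarith
  rw [e1] at hup
  rw [e2] at hLight
  linarith

theorem gap {k : ℕ} (hk : 1 ≤ k) {S : Finset ℕ} {l : ℝ} (hS : ∀ q ∈ S, q.Prime)
    (hl : 2 * (k : ℝ) ≤ l) {t t' : Fin 3 → ℕ} (h : Tr t) (h' : Tr t') (hs : Scale k l t)
    (hs' : Scale k l t') (hL : Light k S t) (hL' : Light k S t')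
    (hN : Near S (l / (4 * k)) t t') : t = t' := by
  have hfin : t 0 = t' 0 → t 1 = t' 1 → t = t' := by
    intro e0 e1
    funext j
    fin_cases j
    · exact e0
    · exact e1
    · show t 2 = t' 2
      rw [← h.add, ← h'.add, e0, e1]
  by_cases he : t 0 * t' 1 = t' 0 * t 1
  · have h1 : t 0 ∣ t' 0 := by
      have : t 0 ∣ t' 0 * t 1 := ⟨t' 1, he.symm⟩
      exact Nat.Coprime.dvd_of_dvd_mul_right h.cop this
    have h2 : t' 0 ∣ t 0 := by
      have : t' 0 ∣ t 0 * t' 1 := ⟨t 1, he⟩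
      exact Nat.Coprime.dvd_of_dvd_mul_right h'.cop this
    have h3 : t 0 = t' 0 := Nat.dvd_antisymm h1 h2
    refine hfin h3 ?_
    rw [h3] at he
    exact (Nat.eq_of_mul_eq_mul_left h'.pos he).symm
  · exfalso
    rcases le_total (t' 0 * t 1) (t 0 * t' 1) with hle | hle
    · refine core hk hS hl h h' hs hs' hL hN he ?_
      zify
      have h1 : (t' 0 : ℤ) * t 1 ≤ t 0 * t' 1 := by exact_mod_cast hle
      have h2 : (0 : ℤ) ≤ t' 0 * t 1 := by positivity
      rw [abs_of_nonneg (by linarith)]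
      linarith
    · refine core hk hS hl h' h hs' hs hL' hN.symm (fun h' => he h'.symm) ?_
      zify
      have h1 : (t 0 : ℤ) * t' 1 ≤ t' 0 * t 1 := by exact_mod_cast hle
      have h2 : (0 : ℤ) ≤ t 0 * t' 1 := by positivity
      rw [abs_of_nonneg (by linarith)]
      linarith

end Pool.Agent.TH867.SR
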