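import Pool.Agent.TH867.SR.Basic

/-! Cells: for a set `S` of primes the triples of one scale fall into at most
`2 ^ (18 k (|S| + 1))` classes of near triples (helper867). -/

set_option autoImplicit false

namespace Pool.Agent.TH867.SR

open Finset

theorem sum_fac_le (S : Finset ℕ) (n : ℕ) :
    ∑ q ∈ S, (n.factorization q : ℝ) * Real.log q ≤ Real.log n := by
  rw [Real.log_nat_eq_sum_factorization, Finsupp.sum]
  have h1 : ∑ q ∈ S ∩ n.factorization.support, (n.factorization q : ℝ) * Real.log q =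
      ∑ q ∈ S, (n.factorization q : ℝ) * Real.log q := by
    refine Finset.sum_subset Finset.inter_subset_left ?_
    intro x hx hnx
    have h2 : x ∉ n.factorization.support := fun h => hnx (Finset.mem_inter.2 ⟨hx, h⟩)
    rw [Finsupp.notMem_support_iff] at h2
    rw [h2]
    simp
  rw [← h1]
  refine Finset.sum_le_sum_of_subset_of_nonneg Finset.inter_subset_right ?_
  intro q _ _
  exact mul_nonneg (Nat.cast_nonneg _) (Real.log_natCast_nonneg q)

theorem log_N3_le {t : Fin 3 → ℕ} (h : Tr t) :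
    Real.log (N3 t : ℝ) ≤ 3 * Real.log (t 2 : ℝ) := by
  rw [log_N3 h]
  have h0 : Real.log (t 0 : ℝ) ≤ Real.log (t 2 : ℝ) :=
    Real.log_le_log (by exact_mod_cast h.pos' 0) (by exact_mod_cast h.le2 0)
  have h1 : Real.log (t 1 : ℝ) ≤ Real.log (t 2 : ℝ) :=
    Real.log_le_log (by exact_mod_cast h.pos' 1) (by exact_mod_cast h.le2 1)
  linarith

/-- the side of a prime -/
def ty (q : ℕ) (t : Fin 3 → ℕ) : Fin 4 :=
  if q ∣ t 0 then 0 else if q ∣ t 1 then 1 else if q ∣ t 2 then 2 else 3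

theorem ty_eq {t : Fin 3 → ℕ} (h : Tr t) {q : ℕ} (hq : q.Prime) (j : Fin 3) :
    q ∣ t j ↔ ty q t = j.castSucc := by
  have h01 : q ∣ t 0 → q ∣ t 1 → False := fun h1 h2 => by
    have := h.uniq hq h1 h2; exact absurd this (by decide)
  have h02 : q ∣ t 0 → q ∣ t 2 → False := fun h1 h2 => by
    have := h.uniq hq h1 h2; exact absurd this (by decide)
  have h12 : q ∣ t 1 → q ∣ t 2 → False := fun h1 h2 => by
    have := h.uniq hq h1 h2; exact absurd this (by decide)
  unfold ty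
  by_cases c0 : q ∣ t 0
  · have c1 : ¬ q ∣ t 1 := fun c => h01 c0 c
    have c2 : ¬ q ∣ t 2 := fun c => h02 c0 c
    rw [if_pos c0]
    fin_cases j
    · exact ⟨fun _ => rfl, fun _ => c0⟩
    · exact ⟨fun c => absurd c c1, fun c => absurd c (by decide)⟩
    · exact ⟨fun c => absurd c c2, fun c => absurd c (by decide)⟩
  · rw [if_neg c0]
    by_cases c1 : q ∣ t 1
    · have c2 : ¬ q ∣ t 2 := fun c => h12 c1 c
      rw [if_pos c1]
      fin_cases j
      · exact ⟨fun c => absurd c c0, fun c => absurd c (by decide)⟩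
      · exact ⟨fun _ => rfl, fun _ => c1⟩
      · exact ⟨fun c => absurd c c2, fun c => absurd c (by decide)⟩
    · rw [if_neg c1]
      by_cases c2 : q ∣ t 2
      · rw [if_pos c2]
        fin_cases j
        · exact ⟨fun c => absurd c c0, fun c => absurd c (by decide)⟩
        · exact ⟨fun c => absurd c c1, fun c => absurd c (by decide)⟩
        · exact ⟨fun _ => rfl, fun _ => c2⟩
      · rw [if_neg c2]
        fin_cases j
        · exact ⟨fun c => absurd c c0, fun c => absurd c (by decide)⟩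
        · exact ⟨fun c => absurd c c1, fun c => absurd c (by decide)⟩
        · exact ⟨fun c => absurd c c2, fun c => absurd c (by decide)⟩

/-- the coordinates -/
noncomputable def nn (u : ℝ) (q : ℕ) (t : Fin 3 → ℕ) : ℕ := ⌊(vv t q : ℝ) * Real.log q / u⌋₊

theorem nn_sum {k : ℕ} (hk : 1 ≤ k) (S : Finset ℕ) (l : ℝ) (hl : 0 < l) {t : Fin 3 → ℕ}
    (h : Tr t) (hs : Scale k l t) :
    ∑ q : S, nn (l / (4 * k * (S.card + 1))) q t ≤ 15 * k * (S.card + 1) := by
  have hk0 : (0 : ℝ) < k := by exact_mod_cast hk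
  have hk1 : (1 : ℝ) ≤ k := by exact_mod_cast hk
  set u : ℝ := l / (4 * k * (S.card + 1)) with hu
  have hu0 : 0 < u := by positivity
  have h1 : ((∑ q : S, nn u q t : ℕ) : ℝ) ≤ ((15 * k * (S.card + 1) : ℕ) : ℝ) := by
    push_cast
    calc (∑ q : S, (nn u q t : ℝ)) ≤
        ∑ q : S, (vv t q : ℝ) * Real.log (q : ℕ) / u := by
          refine Finset.sum_le_sum fun q _ => ?_
          exact Nat.floor_le (div_nonneg (mul_nonneg (Nat.cast_nonneg _)
            (Real.log_natCast_nonneg _)) hu0.le)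
      _ = (∑ q ∈ S, (vv t q : ℝ) * Real.log q) / u := by
          rw [← Finset.sum_div]
          congr 1
          exact Finset.sum_coe_sort S (fun q => (vv t q : ℝ) * Real.log q)
      _ ≤ Real.log (N3 t) / u := by
          exact div_le_div_of_nonneg_right (sum_fac_le S _) hu0.le
      _ ≤ (3 * ((1 + 1 / (4 * k)) * l)) / u := by
          refine div_le_div_of_nonneg_right ?_ hu0.le
          have h2 := log_N3_le h
          have h3 := hs.2
          linarith
      _ = (12 * k + 3) * ((S.card : ℝ) + 1) := by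
          rw [hu]
          field_simp
          ring
      _ ≤ 15 * k * ((S.card : ℝ) + 1) := by
          refine mul_le_mul_of_nonneg_right ?_ (by positivity)
          linarith
  exact_mod_cast h1

theorem floor_near {x y u l : ℝ} (hu : 0 < u) (hx : 0 ≤ x * l / u) (hy : 0 ≤ y * l / u)
    (h : ⌊x * l / u⌋₊ = ⌊y * l / u⌋₊) : |(x - y) * l| ≤ u := by
  have q1 := Nat.floor_le hx
  have q2 := Nat.floor_le hy
  have q3 := Nat.lt_floor_add_one (x * l / u)
  have q4 := Nat.lt_floor_add_one (y * l / u)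
  rw [h] at q1 q3
  have h5 : |x * l / u - y * l / u| ≤ 1 := by
    rw [abs_le]
    constructor <;> linarith
  rw [← sub_div, abs_div, abs_of_pos hu, div_le_one hu] at h5
  rw [sub_mul]
  exact h5

theorem pow_aux {k : ℕ} (hk : 1 ≤ k) (n : ℕ) :
    4 ^ n * 2 ^ (15 * k * (n + 1) + n) ≤ 2 ^ (18 * k * (n + 1)) := by
  have h1 : 4 ^ n = 2 ^ (2 * n) := by
    rw [pow_mul]
    norm_num
  rw [h1, ← pow_add]
  refine Nat.pow_le_pow_right Nat.zero_lt_two ?_
  nlinarith [Nat.mul_le_mul_right (n + 1) hk]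

/-- the code -/
abbrev Cd (k : ℕ) (S : Finset ℕ) : Type :=
  (S → Fin 4) × {f : S → Fin (15 * k * (S.card + 1) + 1) // ∑ q, (f q : ℕ) ≤ 15 * k * (S.card + 1)}

theorem card_Cd {k : ℕ} (hk : 1 ≤ k) (S : Finset ℕ) :
    Fintype.card (Cd k S) ≤ 2 ^ (18 * k * (S.card + 1)) := by
  classical
  unfold Cd
  rw [Fintype.card_prod, Fintype.card_fun, Fintype.card_fin,
    Fintype.card_coe, Fintype.card_subtype]
  exact (Nat.mul_le_mul_left _ (Pool.Agent.W347.RACNT.tCNT S (15 * k * (S.card + 1)))).trans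
    (pow_aux hk S.card)

theorem emb (α : Type) [Fintype α] (M : ℕ) (h : Fintype.card α ≤ M) : Nonempty (α ↪ Fin M) :=
  Function.Embedding.nonempty_of_card_le (by rw [Fintype.card_fin]; exact h)

theorem exists_code {k : ℕ} (hk : 1 ≤ k) (S : Finset ℕ) (l : ℝ) (hl : 0 < l) (t : Fin 3 → ℕ)
    (h : Tr t) (hs : Scale k l t) : ∃ c : Cd k S, (∀ q : S, c.1 q = ty q t) ∧
      ∀ q : S, ((c.2.1 q : Fin _) : ℕ) = nn (l / (4 * k * (S.card + 1))) q t := by
  have h1 := nn_sum hk S l hl h hs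
  have h2 : ∀ q : S, nn (l / (4 * k * (S.card + 1))) q t < 15 * k * (S.card + 1) + 1 := by
    intro q
    have h3 : nn (l / (4 * k * (S.card + 1))) q t ≤
        ∑ q : S, nn (l / (4 * k * (S.card + 1))) q t :=
      Finset.single_le_sum (f := fun q : S => nn (l / (4 * k * (S.card + 1))) q t)
        (fun i _ => Nat.zero_le _) (Finset.mem_univ q)
    exact Nat.lt_succ_of_le (h3.trans h1)
  exact ⟨(fun q => ty q t, ⟨fun q => ⟨nn (l / (4 * k * (S.card + 1))) q t, h2 q⟩, h1⟩),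
    fun q => rfl, fun q => rfl⟩

/-- the primes of `S` divide the same members, each with about the same exponent -/
structure Near1 (S : Finset ℕ) (δ : ℝ) (t t' : Fin 3 → ℕ) : Prop where
  side : ∀ q ∈ S, ∀ j, q ∣ t j ↔ q ∣ t' j
  dist : ∀ q ∈ S, |((vv t q : ℝ) - vv t' q) * Real.log q| ≤ δ

theorem Near1.near {S : Finset ℕ} {δ η : ℝ} {t t' : Fin 3 → ℕ} (h : Near1 S δ t t')
    (hη : (S.card : ℝ) * δ ≤ η) : Near S η t t' := by
  refine ⟨h.side, (Finset.sum_le_sum h.dist).trans ?_⟩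
  rw [Finset.sum_const, nsmul_eq_mul]
  exact hη

/-- the precision -/
noncomputable def prec (k : ℕ) (l : ℝ) (S : Finset ℕ) : ℝ := l / (4 * k * (S.card + 1))

theorem prec_nonneg {k : ℕ} {l : ℝ} (hl : 0 ≤ l) (S : Finset ℕ) : 0 ≤ prec k l S := by
  unfold prec
  positivity

theorem prec_mul {k : ℕ} (hk : 1 ≤ k) {l : ℝ} (S : Finset ℕ) :
    ((S.card : ℝ) + 1) * prec k l S = l / (4 * k) := by
  have hk0 : (0 : ℝ) < k := by exact_mod_cast hk
  unfold prec
  field_simp

theorem prec_card {k : ℕ} (hk : 1 ≤ k) {l : ℝ} (hl : 0 ≤ l) (S : Finset ℕ) :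
    (S.card : ℝ) * prec k l S ≤ l / (4 * k) := by
  rw [← prec_mul hk S]
  have := prec_nonneg (k := k) hl S
  nlinarith

theorem near_of {k : ℕ} (hk : 1 ≤ k) (S : Finset ℕ) (l : ℝ) (hS : ∀ q ∈ S, q.Prime) (hl : 0 < l)
    (t t' : Fin 3 → ℕ) (h : Tr t) (h' : Tr t')
    (hty : ∀ q : S, ty q t = ty q t')
    (hnn : ∀ q : S, nn (l / (4 * k * (S.card + 1))) q t = nn (l / (4 * k * (S.card + 1))) q t') :
    Near1 S (prec k l S) t t' := by
  have hk0 : (0 : ℝ) < k := by exact_mod_cast hk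
  have hu0 : 0 < l / (4 * k * ((S.card : ℝ) + 1)) := by positivity
  refine ⟨fun q hq j => ?_, ?_⟩
  · rw [ty_eq h (hS q hq), ty_eq h' (hS q hq), hty ⟨q, hq⟩]
  · intro q hq
    refine floor_near hu0 ?_ ?_ (hnn ⟨q, hq⟩)
    · exact div_nonneg (mul_nonneg (Nat.cast_nonneg _) (Real.log_natCast_nonneg _)) hu0.le
    · exact div_nonneg (mul_nonneg (Nat.cast_nonneg _) (Real.log_natCast_nonneg _)) hu0.le

/-- few cells -/
theorem cells {k : ℕ} (hk : 1 ≤ k) (S : Finset ℕ) (l : ℝ) (hS : ∀ q ∈ S, q.Prime) (hl : 0 < l) :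
    ∃ F : (Fin 3 → ℕ) → Fin (2 ^ (18 * k * (S.card + 1))), ∀ t t' : Fin 3 → ℕ, Tr t → Tr t' →
      Scale k l t → Scale k l t' → F t = F t' → Near1 S (prec k l S) t t' := by
  classical
  have hcard := card_Cd hk S
  have hpos : 0 < 2 ^ (18 * k * (S.card + 1)) := Nat.pow_pos Nat.zero_lt_two
  generalize 2 ^ (18 * k * (S.card + 1)) = M at hcard hpos ⊢
  obtain ⟨g⟩ := emb (Cd k S) M hcard
  refine ⟨fun x => if h : Tr x ∧ Scale k l x then
    g (exists_code hk S l hl x h.1 h.2).choose else ⟨0, hpos⟩, ?_⟩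
  intro t t' hT₁ hT₂ hs₁ hs₂ hF
  have hc₁ : Tr t ∧ Scale k l t := ⟨hT₁, hs₁⟩
  have hc₂ : Tr t' ∧ Scale k l t' := ⟨hT₂, hs₂⟩
  have hF1 := (dif_pos hc₁).symm.trans (Eq.trans hF (dif_pos hc₂))
  have hF2 := g.injective hF1
  obtain ⟨i1, i2⟩ := (exists_code hk S l hl t hT₁ hs₁).choose_spec
  obtain ⟨j1, j2⟩ := (exists_code hk S l hl t' hT₂ hs₂).choose_spec
  refine near_of hk S l hS hl t t' hT₁ hT₂ (fun q => ?_) (fun q => ?_)
  · rw [← i1 q, ← j1 q]
    exact congrArg (fun c : Cd k S => c.1 q) hF2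
  · rw [← i2 q, ← j2 q]
    exact congrArg (fun c : Cd k S => ((c.2.1 q : Fin _) : ℕ)) hF2

end Pool.Agent.TH867.SR
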