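import Pool.Agent.TH867.SR.Tot
import Pool.Agent.TH867.SR.Small2

/-! One scale, all scales, and the main count (helper867). -/

set_option autoImplicit false

namespace Pool.Agent.TH867.SR

open Finset

theorem exp_aux {u : ℝ} (h0 : 0 ≤ u) (h1 : u ≤ 1 / 3) :
    (2 / 3 + u) * (1 + u) ≤ 2 / 3 + 2 * u := by
  have h2 : 0 ≤ u * (1 / 3 - u) := mul_nonneg h0 (by linarith)
  have h3 : (2 / 3 + u) * (1 + u) = 2 / 3 + 2 * u - u * (1 / 3 - u) := by ring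
  linarith

theorem floor_pow_le {k : ℕ} (hk : 3 ≤ k) {X : ℝ} (hX : 1 ≤ X) :
    ((⌊X ^ (2 / 3 + 1 / (k : ℝ))⌋₊ : ℕ) : ℝ) ^ (1 + 1 / (k : ℝ)) ≤ X ^ (2 / 3 + 2 / (k : ℝ)) := by
  have hk0 : (0 : ℝ) < k := by positivity
  have hk2 : (3 : ℝ) ≤ k := by exact_mod_cast hk
  have hX0 : 0 < X := by linarith
  have a1 : ((⌊X ^ (2 / 3 + 1 / (k : ℝ))⌋₊ : ℕ) : ℝ) ≤ X ^ (2 / 3 + 1 / (k : ℝ)) :=
    Nat.floor_le (by positivity)
  have a2 : ((⌊X ^ (2 / 3 + 1 / (k : ℝ))⌋₊ : ℕ) : ℝ) ^ (1 + 1 / (k : ℝ)) ≤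
      (X ^ (2 / 3 + 1 / (k : ℝ))) ^ (1 + 1 / (k : ℝ)) :=
    Real.rpow_le_rpow (Nat.cast_nonneg _) a1 (by positivity)
  refine a2.trans ?_
  rw [← Real.rpow_mul hX0.le]
  refine Real.rpow_le_rpow_of_exponent_le hX ?_
  have a3 : 1 / (k : ℝ) ≤ 1 / 3 := one_div_le_one_div_of_le (by norm_num) hk2
  have a5 : 2 / (k : ℝ) = 2 * (1 / k) := by ring
  rw [a5]
  exact exp_aux (by positivity) a3

theorem log_sq_le {k : ℕ} (hk : 1 ≤ k) {X : ℝ} (hX : 1 ≤ X) :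
    Real.log X ^ 2 ≤ 4 * k ^ 2 * X ^ (1 / (k : ℝ)) := by
  have hk0 : (0 : ℝ) < k := by exact_mod_cast hk
  have hX0 : 0 < X := by linarith
  have a1 : Real.log X ≤ X ^ (1 / (2 * (k : ℝ))) / (1 / (2 * (k : ℝ))) :=
    Real.log_le_rpow_div hX0.le (by positivity)
  have a2 : X ^ (1 / (2 * (k : ℝ))) / (1 / (2 * (k : ℝ))) = 2 * k * X ^ (1 / (2 * (k : ℝ))) := by
    field_simp
  rw [a2] at a1
  have a3 : Real.log X ^ 2 ≤ (2 * k * X ^ (1 / (2 * (k : ℝ)))) ^ 2 :=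
    pow_le_pow_left₀ (Real.log_nonneg hX) a1 2
  refine a3.trans (le_of_eq ?_)
  rw [mul_pow, ← Real.rpow_natCast (X ^ (1 / (2 * (k : ℝ)))) 2, ← Real.rpow_mul hX0.le]
  have e : 1 / (2 * (k : ℝ)) * ((2 : ℕ) : ℝ) = 1 / k := by
    push_cast
    field_simp
  rw [e]
  ring

/-- the bound at one scale -/
theorem scale_count {k : ℕ} (hk : 3 ≤ k) {η : ℝ} (hη : 0 < η) : ∃ D : ℝ, 0 < D ∧ ∃ L0 : ℝ,
    3 ≤ L0 ∧ ∀ X : ℝ, 1 ≤ X → L0 ≤ Real.log X → ∀ l : ℝ, Real.log X ^ (2 + η) ≤ l → l ≤ X →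
    ∀ F : Finset (Fin 3 → ℕ), (∀ t ∈ F, Tr t ∧ Scale k l t ∧
      rr t 0 + rr t 1 + rr t 2 ≤ Real.log X) →
    (F.card : ℝ) ≤ D * X ^ (2 / 3 + 3 / (k : ℝ)) * l := by
  classical
  have hk0 : (0 : ℝ) < k := by positivity
  have hk1 : 1 ≤ k := by omega
  have hk2 : (3 : ℝ) ≤ k := by exact_mod_cast hk
  obtain ⟨L0, hL0, hsm⟩ := sq_log_small hη (T := 100 * (k : ℝ)) (by positivity)
  obtain ⟨D1, hD1, hso⟩ := sum_omega ((2 : ℝ) ^ (18 * k + 1)) (one_le_pow₀ (by norm_num))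
    (1 / (k : ℝ)) (by positivity)
  refine ⟨28 * 126 * (4 * k ^ 2) * 2 ^ (18 * k) * D1, by positivity, L0, hL0, ?_⟩
  intro X hX hXL l hl hlX F hF
  have hX0 : 0 < X := by linarith
  obtain ⟨L, hLd⟩ : ∃ L, L = Real.log X := ⟨_, rfl⟩
  rw [← hLd] at hXL hl
  have hL3 : 3 ≤ L := hL0.trans hXL
  obtain ⟨hlog1, hLl, hT⟩ := hsm L hXL l hl
  have hl3 : 3 ≤ l := hL3.trans hLl
  have hl0 : 0 < l := by linarith
  have hlogL : Real.log l ≤ L := by
    rw [hLd]; exact Real.log_le_log hl0 hlX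
  have hk2l : 2 * (k : ℝ) ≤ l := by
    refine le_trans ?_ hT
    have h1 : 1 ≤ L ^ 2 * Real.log l := by
      have : (1 : ℝ) ≤ L ^ 2 := by nlinarith
      nlinarith
    nlinarith
  obtain ⟨n, hn⟩ : ∃ n : ℕ, n = ⌈20 * L * Real.log l⌉₊ := ⟨_, rfl⟩
  obtain ⟨K, hK⟩ : ∃ K : ℕ, K = ⌊2 * l⌋₊ := ⟨_, rfl⟩
  obtain ⟨E, hE⟩ : ∃ E : ℕ, E = ⌊5 * l⌋₊ := ⟨_, rfl⟩
  have hn1 : 20 * L * Real.log l ≤ n := by rw [hn]; exact Nat.le_ceil _
  have hnn : 0 ≤ 20 * L * Real.log l := by positivity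
  have hn2 : (n : ℝ) ≤ 20 * L * Real.log l + 1 := by
    rw [hn]; exact (Nat.ceil_lt_add_one hnn).le
  have hn0 : 0 < n := by
    rw [hn, Nat.ceil_pos]
    positivity
  have hKl : (K : ℝ) ≤ 2 * l := by rw [hK]; exact Nat.floor_le (by positivity)
  have hEl : (E : ℝ) ≤ 5 * l := by rw [hE]; exact Nat.floor_le (by positivity)
  obtain ⟨hc, hb⟩ := numeric hk1 hL3 hlog1 hLl hT hn1 hn2 hKl hEl hX hLd.symm
  have hl2a := Real.log_two_gt_d9
  have hl2b := Real.log_two_lt_d9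
  have hsc : ∀ t ∈ F, Real.log (t 2) ≤ (1 + 1 / 12) * l := by
    intro t ht
    obtain ⟨_, h2, _⟩ := hF t ht
    refine h2.2.trans (mul_le_mul_of_nonneg_right ?_ hl0.le)
    have : 1 / (4 * (k : ℝ)) ≤ 1 / 12 := one_div_le_one_div_of_le (by norm_num) (by linarith)
    linarith
  have hKt : ∀ t ∈ F, t 2 ≤ 2 ^ K := by
    intro t ht
    have h1 := hsc t ht
    have h2 : (0 : ℝ) < t 2 := by exact_mod_cast (hF t ht).1.pos' 2
    have h3 : 2 * l - 1 < K := by rw [hK]; exact Nat.sub_one_lt_floor _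
    have h4 : Real.log (t 2) ≤ Real.log ((2 : ℝ) ^ K) := by
      rw [Real.log_pow]
      have h5 : (2 * l - 1) * Real.log 2 ≤ (K : ℝ) * Real.log 2 :=
        mul_le_mul_of_nonneg_right h3.le (by linarith)
      have h6 : (1 + 1 / 12) * l ≤ (2 * l - 1) * Real.log 2 := by nlinarith
      linarith
    have h5 := (Real.log_le_log_iff h2 (by positivity)).1 h4
    exact_mod_cast h5
  have hEt : ∀ t ∈ F, ∀ p, vv t p ≤ E := by
    intro t ht p
    obtain ⟨h1, _, _⟩ := hF t ht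
    have h2 := log_N3_le h1
    have h3 := hsc t ht
    rw [hE]
    refine Nat.le_floor ?_
    by_cases hp : p.Prime
    · have hN : (N3 t) ≠ 0 := h1.N3_pos.ne'
      have h4 : p ^ vv t p ≤ N3 t := Nat.ordProj_le p hN
      have h5 : 2 ^ vv t p ≤ N3 t := (Nat.pow_le_pow_left hp.two_le _).trans h4
      have h6 : Real.log ((2 : ℝ) ^ vv t p) ≤ Real.log (N3 t) :=
        Real.log_le_log (by positivity) (by exact_mod_cast h5)
      rw [Real.log_pow] at h6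
      have h7 : (vv t p : ℝ) * 0.69 ≤ (vv t p : ℝ) * Real.log 2 :=
        mul_le_mul_of_nonneg_left (by linarith) (Nat.cast_nonneg _)
      nlinarith
    · have : vv t p = 0 := Nat.factorization_eq_zero_of_not_prime _ hp
      rw [this]
      push_cast
      positivity
  have hcount := count hk hX hk2l hn0 F (fun t ht => ⟨(hF t ht).1, (hF t ht).2.1⟩)
    (fun t ht => by rw [← hLd]; exact hLd ▸ (hF t ht).2.2) hKt hEt hc hb
  obtain ⟨M, hM⟩ : ∃ M : ℕ, M = ⌊X ^ (2 / 3 + 1 / (k : ℝ))⌋₊ := ⟨_, rfl⟩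
  rw [← hM] at hcount
  have hEn : (((E + 1) * n : ℕ) : ℝ) ≤ 126 * L ^ 2 * l := by
    push_cast
    have h1 : (E : ℝ) + 1 ≤ 6 * l := by linarith
    have h2 : (n : ℝ) ≤ 21 * L ^ 2 := by
      have h3 : L * Real.log l ≤ L * L := mul_le_mul_of_nonneg_left hlogL (by linarith)
      nlinarith
    calc ((E : ℝ) + 1) * n ≤ (6 * l) * (21 * L ^ 2) :=
          mul_le_mul h1 h2 (Nat.cast_nonneg _) (by positivity)
      _ = _ := by ring
  have hEn1 : (1 : ℝ) ≤ 126 * L ^ 2 * l := by nlinarith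
  have h1 : (F.card : ℝ) ≤ ∑ m ∈ Finset.Icc 1 M, (28 * (126 * L ^ 2 * l) * 2 ^ (18 * k)) *
      ((2 : ℝ) ^ (18 * k + 1)) ^ m.primeFactors.card := by
    have h2 : (F.card : ℝ) ≤ ((∑ m ∈ Finset.Icc 1 M, 2 ^ (18 * k * (m.primeFactors.card + 1)) *
        (1 + 27 * (2 ^ m.primeFactors.card * ((E + 1) * n))) : ℕ) : ℝ) := by
      exact_mod_cast hcount
    refine h2.trans ?_
    rw [Nat.cast_sum]
    refine Finset.sum_le_sum fun m _ => ?_
    rw [Nat.cast_mul, Nat.cast_add, Nat.cast_mul, Nat.cast_mul (2 ^ m.primeFactors.card)]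
    push_cast
    push_cast at hEn
    have e1 : (2 : ℝ) ^ (18 * k * (m.primeFactors.card + 1)) =
        2 ^ (18 * k) * (2 ^ (18 * k)) ^ m.primeFactors.card := by
      rw [← pow_mul, ← pow_add]
      congr 1
      ring
    have e2 : ((2 : ℝ) ^ (18 * k + 1)) ^ m.primeFactors.card =
        (2 ^ (18 * k)) ^ m.primeFactors.card * 2 ^ m.primeFactors.card := by
      rw [pow_succ, mul_pow]
    rw [e1, e2]
    have e3 : (1 : ℝ) + 27 * (2 ^ m.primeFactors.card * (((E : ℝ) + 1) * n)) ≤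
        28 * (126 * L ^ 2 * l) * 2 ^ m.primeFactors.card := by
      have p1 : (1 : ℝ) ≤ 2 ^ m.primeFactors.card := one_le_pow₀ (by norm_num)
      have p2 : (2 : ℝ) ^ m.primeFactors.card * (((E : ℝ) + 1) * n) ≤
          2 ^ m.primeFactors.card * (126 * L ^ 2 * l) :=
        mul_le_mul_of_nonneg_left hEn (by positivity)
      have p3 : 1 * 1 ≤ (2 : ℝ) ^ m.primeFactors.card * (126 * L ^ 2 * l) :=
        mul_le_mul p1 hEn1 (by norm_num) (by positivity)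
      linarith
    calc (2 : ℝ) ^ (18 * k) * (2 ^ (18 * k)) ^ m.primeFactors.card *
          (1 + 27 * (2 ^ m.primeFactors.card * (((E : ℝ) + 1) * n))) ≤
        2 ^ (18 * k) * (2 ^ (18 * k)) ^ m.primeFactors.card *
          (28 * (126 * L ^ 2 * l) * 2 ^ m.primeFactors.card) :=
          mul_le_mul_of_nonneg_left e3 (by positivity)
      _ = _ := by ring
  rw [← Finset.mul_sum] at h1
  have h2 := hso M
  have hMX : (M : ℝ) ^ (1 + 1 / (k : ℝ)) ≤ X ^ (2 / 3 + 2 / (k : ℝ)) := by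
    rw [hM]; exact floor_pow_le hk hX
  have hL2 : L ^ 2 ≤ 4 * k ^ 2 * X ^ (1 / (k : ℝ)) := by
    rw [hLd]; exact log_sq_le hk1 hX
  have hXk : X ^ (1 / (k : ℝ)) * X ^ (2 / 3 + 2 / (k : ℝ)) = X ^ (2 / 3 + 3 / (k : ℝ)) := by
    rw [← Real.rpow_add hX0]
    congr 1
    ring
  calc (F.card : ℝ) ≤ (28 * (126 * L ^ 2 * l) * 2 ^ (18 * k)) *
        (D1 * (M : ℝ) ^ (1 + 1 / (k : ℝ))) :=
        h1.trans (mul_le_mul_of_nonneg_left h2 (by positivity))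
    _ ≤ (28 * (126 * (4 * k ^ 2 * X ^ (1 / (k : ℝ))) * l) * 2 ^ (18 * k)) *
        (D1 * X ^ (2 / 3 + 2 / (k : ℝ))) := by
        refine mul_le_mul ?_ (mul_le_mul_of_nonneg_left hMX hD1.le) (by positivity)
          (by positivity)
        refine mul_le_mul_of_nonneg_right ?_ (by positivity)
        refine mul_le_mul_of_nonneg_left ?_ (by norm_num)
        exact mul_le_mul_of_nonneg_right (mul_le_mul_of_nonneg_left hL2 (by norm_num)) hl0.le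
    _ = 28 * 126 * (4 * k ^ 2) * 2 ^ (18 * k) * D1 *
        (X ^ (1 / (k : ℝ)) * X ^ (2 / 3 + 2 / (k : ℝ))) * l := by ring
    _ = _ := by rw [hXk]

end Pool.Agent.TH867.SR
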